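import Pool.Agent.H788Z.Kes.Suff

set_option autoImplicit false

open MeasureTheory Filter Topology Set

namespace Pool.Agent.H788Z.Kes

/-- transfer function -/
noncomputable def W (j : ℕ) (γ y : ℝ) : ℤ := ∑ i ∈ Finset.range j, ⌊y - (i + 1) * γ⌋

/-- the arc length on a Kesten curve -/
noncomputable def Dc (j : ℕ) (l : ℤ) (γ : ℝ) : ℝ := j * γ - l

/-- the frequency on a Kesten curve -/
noncomputable def fr (j : ℕ) (l k m : ℤ) (γ : ℝ) : ℝ := (k * γ + m) / sq2 (Dc j l γ)

/-- the dual frequency -/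
noncomputable def tt (j : ℕ) (l k m : ℤ) (γ : ℝ) : ℝ := fr j l k m γ * (2 * Dc j l γ - 1)

/-- the eigenfunction -/
noncomputable def Psi (j : ℕ) (l k m : ℤ) (γ y : ℝ) : ℂ :=
  ee ((k - tt j l k m γ * j) * y + tt j l k m γ * W j γ y)

/-- the amplitude -/
noncomputable def amp (j : ℕ) (l k m : ℤ) (γ : ℝ) : ℂ := ∫ y in (0 : ℝ)..1, Psi j l k m γ y

lemma Dc_cont (j : ℕ) (l : ℤ) : Continuous (Dc j l) := by unfold Dc; fun_prop

lemma fr_cont (j : ℕ) (l k m : ℤ) : Continuous (fr j l k m) := by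
  unfold fr
  refine Continuous.div (by fun_prop) ?_ fun γ => (sq2_pos _).ne'
  have := Dc_cont j l
  unfold sq2; fun_prop

lemma tt_cont (j : ℕ) (l k m : ℤ) : Continuous (tt j l k m) := by
  have := Dc_cont j l
  have := fr_cont j l k m
  unfold tt; fun_prop

lemma W_step (j : ℕ) (γ y : ℝ) : W j γ (y + γ) - W j γ y = ⌊y⌋ - ⌊y - j * γ⌋ := by
  unfold W
  rw [← Finset.sum_sub_distrib]
  have := Finset.sum_range_sub' (fun i : ℕ => ⌊y - i * γ⌋) j
  simp only [Nat.cast_zero, zero_mul, sub_zero] at this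
  rw [← this]
  refine Finset.sum_congr rfl fun i _ => ?_
  congr 2
  · ring
  · push_cast; ring

lemma W_add_one (j : ℕ) (γ y : ℝ) : W j γ (y + 1) = W j γ y + j := by
  unfold W
  have : ∀ i : ℕ, ⌊y + 1 - (i + 1) * γ⌋ = ⌊y - (i + 1) * γ⌋ + 1 := fun i => by
    rw [← Int.floor_add_one]; congr 1; ring
  simp [this, Finset.sum_add_distrib]

lemma W_measurable (j : ℕ) (γ : ℝ) : Measurable (W j γ) := by unfold W; fun_prop

lemma W_eventually {X : Type*} [TopologicalSpace X] {g y : X → ℝ} {p : X}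
    (hg : ContinuousAt g p) (hy : ContinuousAt y p) (j : ℕ)
    (hgood : ∀ z ∈ (Finset.range j).image fun i : ℕ => ((i : ℝ) + 1) * g p,
      ∀ m : ℤ, y p - z ≠ m) :
    ∀ᶠ q in 𝓝 p, W j (g q) (y q) = W j (g p) (y p) := by
  have key : ∀ᶠ q in 𝓝 p, ∀ i ∈ Finset.range j,
      ⌊y q - (i + 1) * g q⌋ = ⌊y p - (i + 1) * g p⌋ := by
    rw [Filter.eventually_all_finset]
    intro i hi
    exact floor_eventually (f := fun q => y q - (i + 1) * g q)
      (hy.sub (continuousAt_const.mul hg)) (hgood _ (Finset.mem_image_of_mem _ hi))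
  filter_upwards [key] with q hq
  exact Finset.sum_congr rfl hq

lemma cnt_eq_W (j : ℕ) (l : ℤ) (γ y : ℝ) (N : ℕ) :
    cnt (Dc j l γ) γ y N = W j γ (y + N * γ) - W j γ y - N * l := by
  induction N with
  | zero => simp [cnt_zero]
  | succ n ih =>
    have h1 := W_step j γ (y + n * γ)
    have h2 : ⌊y + (n : ℝ) * γ - Dc j l γ⌋ = ⌊y + n * γ - j * γ⌋ + l := by
      rw [← Int.floor_add_intCast]; congr 1; unfold Dc; ring
    push_cast
    rw [cnt_succ, ih, show y + ((n : ℝ) + 1) * γ = y + n * γ + γ by ring]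
    unfold ind
    push_cast
    rw [h2]
    linarith

lemma norm_Psi (j : ℕ) (l k m : ℤ) (γ y : ℝ) : ‖Psi j l k m γ y‖ = 1 := norm_ee _

lemma Psi_measurable (j : ℕ) (l k m : ℤ) (γ : ℝ) : Measurable (Psi j l k m γ) := by
  have := W_measurable j γ
  unfold Psi
  exact ee_cont.measurable.comp (by fun_prop)

lemma phase (j : ℕ) (l k m : ℤ) (γ y : ℝ) (N : ℕ) :
    ee (fr j l k m γ * disp (Dc j l γ) γ N y) * Psi j l k m γ y = Psi j l k m γ (y + N * γ) := by
  have hsa : fr j l k m γ * sq2 (Dc j l γ) = k * γ + m := div_mul_cancel₀ _ (sq2_pos _).ne'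
  unfold Psi
  rw [← ee_add]
  have e : fr j l k m γ * disp (Dc j l γ) γ N y +
      ((k - tt j l k m γ * j) * y + tt j l k m γ * W j γ y) =
      ((k - tt j l k m γ * j) * (y + N * γ) + tt j l k m γ * W j γ (y + N * γ)) +
        ((N * m : ℤ) : ℝ) := by
    unfold disp tt
    rw [cnt_eq_W]
    unfold sq2 at hsa
    have hD : Dc j l γ = j * γ - l := rfl
    push_cast
    linear_combination (N : ℝ) * hsa - (N : ℝ) * fr j l k m γ * (2 * Dc j l γ - 1) * hD
  rw [e, ee_add, ee_int, mul_one]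

lemma UE_Psi (j : ℕ) (l k m : ℤ) {γ : ℝ} (hγ : Irrational γ) :
    UE γ (Psi j l k m γ) (amp j l k m γ) := by
  refine UE_piecewise hγ (Psi_measurable j l k m γ) ?_ (C := 1) (fun y => (norm_Psi _ _ _ _ _ y).le)
    ((Finset.range j).image fun i : ℕ => ((i : ℝ) + 1) * γ) ?_
  · intro y
    unfold Psi
    rw [W_add_one]
    have : (k - tt j l k m γ * j) * (y + 1) + tt j l k m γ * ((W j γ y + j : ℤ) : ℝ) =
        (k - tt j l k m γ * j) * y + tt j l k m γ * W j γ y + (k : ℝ) := by push_cast; ring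
    rw [this, ee_add, ee_int, mul_one]
  · intro y hy
    have := W_eventually (g := fun _ : ℝ => γ) (y := fun u => u) continuousAt_const
      continuousAt_id j hy
    refine ContinuousAt.congr
      (f := fun u => ee ((k - tt j l k m γ * j) * u + tt j l k m γ * W j γ y))
      (ee_cont.comp (by fun_prop)).continuousAt ?_
    filter_upwards [this] with u hu
    unfold Psi
    rw [hu]

lemma eventually_usum (j : ℕ) (l k m : ℤ) {γ : ℝ} (hγ : Irrational γ) (y : ℝ)
    (ha : 1 / 2 < ‖amp j l k m γ‖) :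
    ∀ᶠ N : ℕ in atTop, (1 / 2 : ℝ) * N < ‖Usum (Dc j l γ) γ y N (fr j l k m γ)‖ := by
  have t := ((UE_Psi j l k m hγ).tendsto (fun _ : ℕ => y) (N := fun N => N) tendsto_id).norm
  filter_upwards [t.eventually (lt_mem_nhds ha), eventually_gt_atTop 0] with N h hN
  have hN' : (0 : ℝ) < N := by exact_mod_cast hN
  simp_rw [← phase] at h
  rw [← Finset.sum_mul, norm_mul, norm_mul, norm_Psi, mul_one, norm_div, norm_one,
    Complex.norm_natCast, one_div_mul_eq_div, lt_div_iff₀ hN'] at h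
  exact h

lemma amp_cont (j : ℕ) (l k m : ℤ) : Continuous (amp j l k m) := by
  rw [continuous_iff_continuousAt]
  intro γ₀
  unfold amp
  refine intervalIntegral.continuousAt_of_dominated_interval (bound := fun _ => 1) ?_ ?_
    intervalIntegrable_const ?_
  · exact Eventually.of_forall fun γ => (Psi_measurable j l k m γ).aestronglyMeasurable
  · exact Eventually.of_forall fun γ => ae_of_all _ fun y _ => (norm_Psi _ _ _ _ _ y).le
  · filter_upwards [ae_good ((Finset.range j).image fun i : ℕ => ((i : ℝ) + 1) * γ₀)] with y hy _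
    have := W_eventually (g := fun γ : ℝ => γ) (y := fun _ => y) continuousAt_id
      continuousAt_const j hy
    have tc := tt_cont j l k m
    refine ContinuousAt.congr
      (f := fun γ => ee ((k - tt j l k m γ * j) * y + tt j l k m γ * W j γ₀ y))
      (ee_cont.comp (by fun_prop)).continuousAt ?_
    filter_upwards [this] with u hu
    unfold Psi
    rw [hu]

lemma W_branch (j q : ℕ) (p : ℤ) {γ : ℝ} (hγ : q * γ = p) (b : ℕ) :
    ∃ c : ℤ, ∀ y : ℝ, W (j + b * q) γ y =
      W j γ y + b * (∑ r ∈ Finset.range q, ⌊y - (j + r + 1) * γ⌋) + c := by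
  induction b with
  | zero => exact ⟨0, fun y => by simp⟩
  | succ b ih =>
    obtain ⟨c, hc⟩ := ih
    refine ⟨c - q * (b * p), fun y => ?_⟩
    have e : j + (b + 1) * q = (j + b * q) + q := by ring
    have h1 : W (j + (b + 1) * q) γ y = W (j + b * q) γ y +
        ∑ r ∈ Finset.range q, (⌊y - (j + r + 1) * γ⌋ - b * p) := by
      rw [e]
      unfold W
      rw [Finset.sum_range_add]
      congr 1
      refine Finset.sum_congr rfl fun r _ => ?_
      rw [← Int.floor_sub_intCast]
      congr 1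
      push_cast
      linear_combination -(b : ℝ) * hγ
    rw [h1, hc, Finset.sum_sub_distrib]
    simp only [Finset.sum_const, Finset.card_range, nsmul_eq_mul]
    push_cast; ring

lemma Dc_branch (j q : ℕ) (l p : ℤ) {γ : ℝ} (hγ : q * γ = p) (b : ℕ) :
    Dc (j + b * q) (l + b * p) γ = Dc j l γ := by
  unfold Dc; push_cast; linear_combination (b : ℝ) * hγ

lemma fr_branch (j q : ℕ) (l p k m κ : ℤ) {γ : ℝ} (hγ : q * γ = p) (b : ℕ) :
    fr (j + b * q) (l + b * p) (k + κ * q) (m - κ * p) γ = fr j l k m γ := by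
  unfold fr
  rw [Dc_branch j q l p hγ]
  congr 1
  push_cast; linear_combination (κ : ℝ) * hγ

lemma amp_branch (j q : ℕ) (l p k m κ : ℤ) {γ : ℝ} (hγ : q * γ = p) (b : ℕ)
    (hκ : tt j l k m γ * b = κ) :
    ‖amp (j + b * q) (l + b * p) (k + κ * q) (m - κ * p) γ‖ = ‖amp j l k m γ‖ := by
  obtain ⟨c, hc⟩ := W_branch j q p hγ b
  have ht : tt (j + b * q) (l + b * p) (k + κ * q) (m - κ * p) γ = tt j l k m γ := by
    unfold tt
    rw [fr_branch j q l p k m κ hγ, Dc_branch j q l p hγ]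
  have e : ∀ y, Psi (j + b * q) (l + b * p) (k + κ * q) (m - κ * p) γ y =
      Psi j l k m γ y * ee (tt j l k m γ * c) := by
    intro y
    unfold Psi
    rw [ht, hc, ← ee_add]
    set V := ∑ r ∈ Finset.range q, ⌊y - (j + r + 1) * γ⌋
    have : (((k + κ * q : ℤ) : ℝ) - tt j l k m γ * ((j + b * q : ℕ) : ℝ)) * y +
        tt j l k m γ * ((W j γ y + b * V + c : ℤ) : ℝ) =
        ((k - tt j l k m γ * j) * y + tt j l k m γ * W j γ y + tt j l k m γ * c) +
          ((κ * V : ℤ) : ℝ) := by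
      push_cast
      linear_combination ((V : ℝ) - q * y) * hκ
    rw [this, ee_add, ee_int, mul_one]
  unfold amp
  simp_rw [e]
  rw [intervalIntegral.integral_mul_const, norm_mul, norm_ee, mul_one]

lemma new_frequency (j : ℕ) (l : ℤ) {γ : ℝ} (h0 : 0 < Dc j l γ) (h1 : Dc j l γ < 1)
    (hD : 2 * Dc j l γ - 1 ≠ 0) (K : ℝ) :
    ∃ k m : ℤ, K < |fr j l k m γ| ∧ 1 / 2 < ‖amp j l k m γ‖ := by
  set B : ℝ := ∑ i ∈ Finset.range j, (1 + |((i : ℝ) + 1) * γ|) + 1 with hB
  have hB0 : 0 < B := by positivity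
  have hW : ∀ y, |(W j γ y : ℝ) - j * y| ≤ B := by
    intro y
    unfold W
    push_cast
    have : (j : ℝ) * y = ∑ _i ∈ Finset.range j, y := by simp
    rw [this, ← Finset.sum_sub_distrib]
    refine (Finset.abs_sum_le_sum_abs _ _).trans (le_trans (Finset.sum_le_sum fun i _ => ?_)
      (le_add_of_nonneg_right zero_le_one))
    have a := Int.floor_le (y - (i + 1) * γ)
    have b := Int.lt_floor_add_one (y - (i + 1) * γ)
    rw [abs_le]
    constructor <;> linarith [le_abs_self (((i : ℝ) + 1) * γ), neg_abs_le (((i : ℝ) + 1) * γ)]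
  have hpi := Real.pi_pos
  obtain ⟨p, m, hs, ht⟩ := dirichlet h0 h1 hD (ε := 1 / (8 * Real.pi * B)) (by positivity) K
  have e : fr j l (p * j) (m - p * l) γ = (p * Dc j l γ + m) / sq2 (Dc j l γ) := by
    unfold fr
    congr 1
    unfold Dc; push_cast; ring
  refine ⟨p * j, m - p * l, by rwa [e], ?_⟩
  rw [← e] at ht
  change |tt j l (p * j) (m - p * l) γ - p| ≤ _ at ht
  have hP : ∀ y, ‖Psi j l (p * j) (m - p * l) γ y - 1‖ ≤ 1 / 4 := by
    intro y
    unfold Psi
    set t := tt j l (p * j) (m - p * l) γ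
    have : (((p * j : ℤ) : ℝ) - t * j) * y + t * W j γ y =
        ((p * W j γ y : ℤ) : ℝ) + (t - p) * (W j γ y - j * y) := by push_cast; ring
    rw [this, ee_add, ee_int, one_mul]
    refine (norm_ee_sub_one _).trans ?_
    rw [abs_mul]
    have := hW y
    calc 2 * Real.pi * (|t - p| * |(W j γ y : ℝ) - j * y|)
        ≤ 2 * Real.pi * (1 / (8 * Real.pi * B) * B) := by gcongr
      _ = 1 / 4 := by field_simp; ring
  have hi : IntervalIntegrable (Psi j l (p * j) (m - p * l) γ) volume 0 1 := by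
    refine (intervalIntegrable_const (c := (1 : ℝ))).mono_fun
      (Psi_measurable _ _ _ _ _).aestronglyMeasurable ?_
    filter_upwards with y
    simp [norm_Psi]
  have a := intervalIntegral.norm_integral_le_of_norm_le_const (a := (0 : ℝ)) (b := 1)
    (f := fun y => Psi j l (p * j) (m - p * l) γ y - 1) (C := 1 / 4) (fun y _ => hP y)
  rw [intervalIntegral.integral_sub hi intervalIntegrable_const] at a
  simp only [intervalIntegral.integral_const, sub_zero, one_smul, abs_one, mul_one] at a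
  have := norm_sub_norm_le (1 : ℂ) (amp j l (p * j) (m - p * l) γ)
  rw [norm_sub_rev, norm_one] at this
  unfold amp at this ⊢
  linarith

end Pool.Agent.H788Z.Kes
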