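import Pool.Agent.H788Z.Kes.Cocycle

set_option autoImplicit false

open MeasureTheory Filter Topology Set

namespace Pool.Agent.H788Z.Kes

lemma UE.tendsto {γ : ℝ} {G : ℝ → ℂ} {c : ℂ} (h : UE γ G c) {ι : Type*} {l : Filter ι}
    (y : ι → ℝ) {N : ι → ℕ} (hN : Tendsto N l atTop) :
    Tendsto (fun t => (1 / (N t : ℂ)) * ∑ i ∈ Finset.range (N t), G (y t + i * γ)) l (𝓝 c) := by
  rw [Metric.tendsto_nhds]
  intro ε hε
  obtain ⟨N₀, hN₀⟩ := h (ε / 2) (by positivity)
  filter_upwards [hN.eventually_ge_atTop (max N₀ 1)] with t ht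
  have h1 := hN₀ (N t) (le_trans (le_max_left _ _) ht) (y t)
  have h2 : (0 : ℝ) < N t := by exact_mod_cast le_trans (le_max_right _ _) ht
  have h3 : (N t : ℂ) ≠ 0 := by exact_mod_cast h2.ne'
  rw [dist_eq_norm]
  have : (1 / (N t : ℂ)) * ∑ i ∈ Finset.range (N t), G (y t + i * γ) - c =
      (∑ i ∈ Finset.range (N t), G (y t + i * γ) - N t * c) / N t := by
    generalize ∑ i ∈ Finset.range (N t), G (y t + i * γ) = S
    field_simp
  rw [this, norm_div, Complex.norm_natCast, div_lt_iff₀ h2]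
  nlinarith

/-- continuous functions with quadratic decay -/
def Decay (φ : ℝ → ℂ) : Prop := Continuous φ ∧ ∃ C : ℝ, ∀ x, ‖φ x‖ ≤ C / (1 + x ^ 2)

lemma summable_bound {r : ℝ} (hr : 0 < r) (C : ℝ) :
    Summable fun h : ℤ => C / (1 + (r * |(h : ℝ)|) ^ 2) := by
  have h1 : Summable fun h : ℤ => 1 / (h : ℝ) ^ 2 :=
    Real.summable_one_div_int_pow.2 one_lt_two
  have h2 : Summable fun h : ℤ => 1 / (1 + (r * |(h : ℝ)|) ^ 2) := by
    refine Summable.of_norm_bounded_eventually (h1.mul_left (1 / r ^ 2)) ?_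
    filter_upwards [(Set.finite_singleton (0 : ℤ)).compl_mem_cofinite] with h hh
    have hh' : (h : ℝ) ≠ 0 := by exact_mod_cast hh
    rw [Real.norm_eq_abs, abs_of_pos (by positivity), mul_pow, sq_abs, one_div_mul_one_div]
    apply one_div_le_one_div_of_le (by positivity)
    linarith
  simpa [div_eq_mul_inv] using h2.mul_left C

lemma Decay.bound_F {φ : ℝ → ℂ} {C : ℝ} (hC : ∀ x, ‖φ x‖ ≤ C / (1 + x ^ 2)) {D : ℝ} (h0 : 0 < D)
    (h1 : D < 1) (γ y : ℝ) (h : ℤ) :
    ‖φ (F D γ h y)‖ ≤ C / (1 + (rmin D * |(h : ℝ)|) ^ 2) := by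
  have hC0 : 0 ≤ C := by
    have := (norm_nonneg _).trans (hC 0)
    simpa using this
  refine (hC _).trans ?_
  apply div_le_div_of_nonneg_left hC0 (by positivity)
  have := (F_abs_bounds h0 h1 γ y h).1
  have hr := rmin_pos h0 h1
  rw [← sq_abs (F D γ h y)]
  gcongr

/-- the mean gap -/
noncomputable def meanGap (D γ : ℝ) : ℝ := ∫ y in (0 : ℝ)..1, F D γ 1 y

lemma F_intervalIntegrable {D : ℝ} (h0 : 0 < D) (h1 : D < 1) (γ : ℝ) (h : ℤ) :
    IntervalIntegrable (F D γ h) volume 0 1 := by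
  refine (intervalIntegrable_const (c := rmax D * |(h : ℝ)|)).mono_fun
    (F_measurable D γ h).aestronglyMeasurable ?_
  filter_upwards with y
  have := (F_abs_bounds h0 h1 γ y h).2
  exact this.trans (le_abs_self _)

lemma meanGap_pos {D : ℝ} (h0 : 0 < D) (h1 : D < 1) (γ : ℝ) : 0 < meanGap D γ := by
  have : ∫ _ in (0 : ℝ)..1, rmin D ≤ meanGap D γ :=
    intervalIntegral.integral_mono_on zero_le_one intervalIntegrable_const
      (F_intervalIntegrable h0 h1 γ 1) (fun y _ => (F_one_bounds h0 h1 γ y).1)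
  simp at this
  linarith [rmin_pos h0 h1]

/-- law of the displacement after `h` steps -/
noncomputable def law (D γ : ℝ) (h : ℤ) : Measure ℝ :=
  (volume.restrict (Ioc (0 : ℝ) 1)).map (F D γ h)

/-- the autocorrelation measure -/
noncomputable def eta (D γ : ℝ) : Measure ℝ :=
  ENNReal.ofReal (1 / meanGap D γ) • Measure.sum (law D γ)

lemma integral_law (D γ : ℝ) (h : ℤ) {E : Type*} [NormedAddCommGroup E] [NormedSpace ℝ E]
    [SecondCountableTopology E]
    {φ : ℝ → E} (hφ : Continuous φ) :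
    ∫ x, φ x ∂(law D γ h) = ∫ y in (0 : ℝ)..1, φ (F D γ h y) := by
  unfold law
  rw [integral_map (F_measurable D γ h).aemeasurable hφ.aestronglyMeasurable,
    intervalIntegral.integral_of_le zero_le_one]

lemma integrable_sum_law {D : ℝ} (h0 : 0 < D) (h1 : D < 1) (γ : ℝ) {φ : ℝ → ℂ} (hφ : Decay φ) :
    Integrable φ (Measure.sum (law D γ)) := by
  obtain ⟨hc, C, hC⟩ := hφ
  apply integrable_sum_measure
  · intro h
    unfold law
    rw [integrable_map_measure hc.aestronglyMeasurable (F_measurable D γ h).aemeasurable]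
    refine Integrable.of_bound (hc.measurable.comp (F_measurable D γ h)).aestronglyMeasurable
      (C / (1 + (rmin D * |(h : ℝ)|) ^ 2)) ?_
    filter_upwards with y using Decay.bound_F hC h0 h1 γ y h
  · refine Summable.of_nonneg_of_le (fun h => integral_nonneg fun _ => norm_nonneg _) (fun h => ?_)
      (summable_bound (rmin_pos h0 h1) C)
    rw [integral_law D γ h hc.norm]
    have := intervalIntegral.norm_integral_le_of_norm_le_const (a := (0 : ℝ)) (b := 1)
      (f := fun y => ‖φ (F D γ h y)‖) (C := C / (1 + (rmin D * |(h : ℝ)|) ^ 2))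
      (fun y _ => by simpa using Decay.bound_F hC h0 h1 γ y h)
    simp only [sub_zero, abs_one, mul_one, Real.norm_eq_abs] at this
    exact (le_abs_self _).trans this

lemma integrable_eta {D : ℝ} (h0 : 0 < D) (h1 : D < 1) (γ : ℝ) {φ : ℝ → ℂ} (hφ : Decay φ) :
    Integrable φ (eta D γ) :=
  (integrable_sum_law h0 h1 γ hφ).smul_measure ENNReal.ofReal_ne_top

lemma integral_eta {D : ℝ} (h0 : 0 < D) (h1 : D < 1) (γ : ℝ) {φ : ℝ → ℂ} (hφ : Decay φ) :
    ∫ x, φ x ∂(eta D γ) =
      (1 / (meanGap D γ : ℂ)) * ∑' h : ℤ, ∫ y in (0 : ℝ)..1, φ (F D γ h y) := by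
  unfold eta
  rw [integral_smul_measure, integral_sum_measure (integrable_sum_law h0 h1 γ hφ),
    ENNReal.toReal_ofReal (by have := meanGap_pos h0 h1 γ; positivity)]
  simp_rw [integral_law D γ _ hφ.1]
  rw [Complex.real_smul]; push_cast; rfl

lemma locallyFinite_of_integrable {μ : Measure ℝ} {f : ℝ → ℂ} (hf : Continuous f)
    (h0 : ∀ x, f x ≠ 0) (hi : Integrable f μ) : IsLocallyFiniteMeasure μ := by
  refine ⟨fun x => ⟨{u | ‖f x‖ / 2 ≤ ‖f u‖}, ?_, hi.measure_norm_ge_lt_top ?_⟩⟩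
  · have hx : 0 < ‖f x‖ := norm_pos_iff.2 (h0 x)
    have : ∀ᶠ u in 𝓝 x, ‖f x‖ / 2 < ‖f u‖ :=
      (hf.norm.tendsto x).eventually (lt_mem_nhds (by linarith))
    filter_upwards [this] with u hu using hu.le
  · have hx : 0 < ‖f x‖ := norm_pos_iff.2 (h0 x)
    linarith

/-- the weight -/
noncomputable def wt (x : ℝ) : ℝ := 1 / (1 + x ^ 2)

lemma wt_pos (x : ℝ) : 0 < wt x := by unfold wt; positivity

lemma wt_cont : Continuous wt := by
  unfold wt
  exact continuous_const.div (by fun_prop) fun x => by positivity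

lemma decay_wt : Decay fun x => (wt x : ℂ) := by
  refine ⟨Complex.continuous_ofReal.comp wt_cont, 1, fun x => ?_⟩
  rw [Complex.norm_real, Real.norm_eq_abs, abs_of_pos (wt_pos x)]
  exact le_rfl

lemma eta_locallyFinite {D : ℝ} (h0 : 0 < D) (h1 : D < 1) (γ : ℝ) :
    IsLocallyFiniteMeasure (eta D γ) :=
  locallyFinite_of_integrable decay_wt.1 (fun x => by exact_mod_cast (wt_pos x).ne')
    (integrable_eta h0 h1 γ decay_wt)

lemma inner_tsum (f : ℤ → ℂ) (N i' : ℕ) :
    ∑ i ∈ Finset.range N, f ((i : ℤ) - i') =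
      ∑' h : ℤ, if 0 ≤ (i' : ℤ) + h ∧ (i' : ℤ) + h < N then f h else 0 := by
  rw [tsum_eq_sum (s := Finset.Ico (-(i' : ℤ)) (N - i'))]
  · rw [Finset.sum_congr rfl (g := f)]
    · refine Finset.sum_nbij' (fun i => (i : ℤ) - i') (fun h => (h + i').toNat) ?_ ?_ ?_ ?_ ?_
      · intro i hi; simp only [Finset.mem_range, Finset.mem_Ico] at hi ⊢; omega
      · intro h hh; simp only [Finset.mem_range, Finset.mem_Ico] at hh ⊢; omega
      · intro i _; simp
      · intro h hh; simp only [Finset.mem_Ico] at hh ⊢; omega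
      · intro i _; rfl
    · intro h hh
      rw [Finset.mem_Ico] at hh
      rw [if_pos (by omega)]
  · intro h hh
    rw [Finset.mem_Ico] at hh
    rw [if_neg (by omega)]

lemma card_bad (N : ℕ) (h : ℤ) :
    (((Finset.range N).filter fun i' : ℕ => ¬ (0 ≤ (i' : ℤ) + h ∧ (i' : ℤ) + h < N)).card : ℝ) ≤
      2 * |(h : ℝ)| := by
  have : ((Finset.range N).filter fun i' : ℕ => ¬ (0 ≤ (i' : ℤ) + h ∧ (i' : ℤ) + h < N)) ⊆
      Finset.range h.natAbs ∪ Finset.Ico (N - h.natAbs) N := by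
    intro i hi
    simp only [Finset.mem_filter, Finset.mem_range, Finset.mem_union, Finset.mem_Ico] at hi ⊢
    omega
  have h2 := (Finset.card_le_card this).trans (Finset.card_union_le _ _)
  rw [Finset.card_range, Nat.card_Ico] at h2
  have h3 : ((Finset.range N).filter fun i' : ℕ =>
      ¬ (0 ≤ (i' : ℤ) + h ∧ (i' : ℤ) + h < N)).card ≤ 2 * h.natAbs := by omega
  have h4 : ((h.natAbs : ℕ) : ℝ) = |(h : ℝ)| := by
    rw [← Int.cast_natCast, Int.natCast_natAbs, Int.cast_abs]
  rw [← h4]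
  exact_mod_cast h3

theorem window {D γ : ℝ} (h0 : 0 < D) (h1 : D < 1) (hγ : Irrational γ) (x₀ : ℝ)
    {ι : Type*} {l : Filter ι} (M : ι → ℤ) {N : ι → ℕ} (hN : Tendsto N l atTop)
    {φ : ℝ → ℂ} (hφ : Decay φ) :
    Tendsto (fun t => (1 / (N t : ℂ)) * ∑ i ∈ Finset.range (N t), ∑ i' ∈ Finset.range (N t),
        φ (F D γ (M t + i) x₀ - F D γ (M t + i') x₀)) l
      (𝓝 (∑' h : ℤ, ∫ y in (0 : ℝ)..1, φ (F D γ h y))) := by
  obtain ⟨hc, C, hC⟩ := hφ
  have hC0 : 0 ≤ C := by
    have := (norm_nonneg _).trans (hC 0)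
    simpa using this
  have hC' : ∀ x, ‖φ x‖ ≤ C := fun x => (hC x).trans (div_le_self hC0 (by nlinarith))
  set y : ι → ℝ := fun t => x₀ + M t * γ with hy
  set term : ι → ℤ → ℂ := fun t h => (1 / (N t : ℂ)) * ∑ i' ∈ Finset.range (N t),
    if 0 ≤ (i' : ℤ) + h ∧ (i' : ℤ) + h < N t then φ (F D γ h (y t + i' * γ)) else 0 with hterm
  have e1 : ∀ t, (1 / (N t : ℂ)) * ∑ i ∈ Finset.range (N t), ∑ i' ∈ Finset.range (N t),
        φ (F D γ (M t + i) x₀ - F D γ (M t + i') x₀) = ∑' h, term t h := by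
    intro t
    simp only [hterm]
    rw [tsum_mul_left, Summable.tsum_finsetSum, Finset.sum_comm]
    · congr 1
      refine Finset.sum_congr rfl fun i' _ => ?_
      rw [← inner_tsum (fun h => φ (F D γ h (y t + i' * γ)))]
      refine Finset.sum_congr rfl fun i _ => ?_
      congr 1
      have := F_add D γ x₀ (M t + i') ((i : ℤ) - i')
      rw [show M t + i' + ((i : ℤ) - i') = M t + i by ring] at this
      rw [this, add_sub_cancel_left]
      congr 1
      simp only [hy]; push_cast; ring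
    · intro i' _
      apply summable_of_ne_finset_zero (s := Finset.Ico (-(i' : ℤ)) (N t - i'))
      intro h hh
      rw [Finset.mem_Ico] at hh
      rw [if_neg (by omega)]
  simp_rw [e1]
  apply tendsto_tsum_of_dominated_convergence (summable_bound (rmin_pos h0 h1) C)
  · intro h
    have t1 := (UE_F h0 h1 hγ h hc).tendsto y hN
    have t2 : Tendsto (fun t => (1 / (N t : ℂ)) * ∑ i' ∈ Finset.range (N t),
        φ (F D γ h (y t + i' * γ)) - term t h) l (𝓝 0) := by
      have t3 : Tendsto (fun t => (C * (2 * |(h : ℝ)|)) / (N t : ℝ)) l (𝓝 0) :=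
        (tendsto_const_div_atTop_nhds_zero_nat _).comp hN
      refine squeeze_zero_norm (fun t => ?_) t3
      simp only [hterm]
      rw [← mul_sub, ← Finset.sum_sub_distrib, norm_mul, norm_div, norm_one, Complex.norm_natCast,
        one_div_mul_eq_div]
      gcongr
      refine (norm_sum_le _ _).trans ?_
      refine le_trans ?_ (mul_le_mul_of_nonneg_left (card_bad (N t) h) hC0)
      rw [Finset.card_filter]
      push_cast
      rw [Finset.mul_sum]
      refine Finset.sum_le_sum fun i' _ => ?_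
      split_ifs with hh
      · simp
      · simpa using hC' _
    have := t1.sub t2
    simpa using this
  · filter_upwards with t h
    simp only [hterm]
    rcases Nat.eq_zero_or_pos (N t) with hz | hz
    · rw [hz]; simp; positivity
    have hz' : (0 : ℝ) < N t := by exact_mod_cast hz
    rw [norm_mul, norm_div, norm_one, Complex.norm_natCast, one_div_mul_eq_div, div_le_iff₀ hz']
    refine (norm_sum_le _ _).trans ?_
    have : C / (1 + (rmin D * |(h : ℝ)|) ^ 2) * (N t : ℝ) =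
        ∑ _i ∈ Finset.range (N t), C / (1 + (rmin D * |(h : ℝ)|) ^ 2) := by
      simp [mul_comm]
    rw [this]
    refine Finset.sum_le_sum fun i' _ => ?_
    split_ifs with hh
    · exact Decay.bound_F hC h0 h1 γ _ h
    · simp; positivity

end Pool.Agent.H788Z.Kes
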