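import Pool.Agent.H788Z.Kes.Auto

set_option autoImplicit false

open MeasureTheory Filter Topology Set

namespace Pool.Agent.H788Z.Kes

lemma exists_first {D : ℝ} (h0 : 0 < D) (h1 : D < 1) (γ x₀ : ℝ) (P : ℝ → Prop) (T : ℝ)
    (hP1 : ∀ x, T < x → P x) (hP2 : ∀ x, P x → T ≤ x) :
    ∃ n : ℤ, P (F D γ n x₀) ∧ ∀ k : ℤ, P (F D γ k x₀) → n ≤ k := by
  classical
  have hr := rmin_pos h0 h1
  obtain ⟨K, hK⟩ := exists_nat_gt (|T| / rmin D)
  rw [div_lt_iff₀ hr] at hK
  apply Int.exists_least_of_bdd (P := fun n => P (F D γ n x₀))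
  · refine ⟨-(K : ℤ), fun z hz => ?_⟩
    by_contra hc
    push Not at hc
    have h2 := (F_strictMono h0 h1 γ x₀ hc)
    have h3 := (F_strictMono h0 h1 γ x₀).monotone (show -(K : ℤ) ≤ 0 by omega)
    have h4 := (F_abs_bounds h0 h1 γ x₀ (-(K : ℤ))).1
    simp only [F_zero] at h2 h3
    rw [abs_of_nonpos h3] at h4
    simp only [Int.cast_neg, Int.cast_natCast, abs_neg, Nat.abs_cast] at h4
    have := hP2 _ hz
    have := neg_abs_le T
    nlinarith
  · refine ⟨K, hP1 _ ?_⟩
    have := (F_nat_bounds h0 h1 γ x₀ K).1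
    have := le_abs_self T
    nlinarith

lemma exists_window {D : ℝ} (h0 : 0 < D) (h1 : D < 1) (γ x₀ : ℝ) (T : ℝ) :
    ∃ (M : ℤ) (N : ℕ), (∀ n : ℤ, F D γ n x₀ ∈ Icc (-T) T ↔ M ≤ n ∧ n < M + N) ∧
      (0 ≤ T → |F D γ (M + N) x₀ - F D γ M x₀ - 2 * T| ≤ rmax D) := by
  obtain ⟨M, hM1, hM2⟩ := exists_first h0 h1 γ x₀ (fun x => -T ≤ x) (-T) (fun x h => h.le)
    (fun x h => h)
  obtain ⟨K, hK1, hK2⟩ := exists_first h0 h1 γ x₀ (fun x => T < x) T (fun x h => h)
    (fun x h => h.le)
  have mono := F_strictMono h0 h1 γ x₀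
  refine ⟨M, (K - M).toNat, fun n => ?_, fun hT => ?_⟩
  · constructor
    · rintro ⟨a, b⟩
      have c1 := hM2 n a
      have c2 : n < K := by
        by_contra hc
        push Not at hc
        have := mono.monotone hc
        linarith
      omega
    · rintro ⟨a, b⟩
      constructor
      · exact hM1.trans (mono.monotone a)
      · by_contra hc
        push Not at hc
        have := hK2 n hc
        omega
  · have hMK : M ≤ K := hM2 K (by linarith)
    have e : M + ((K - M).toNat : ℤ) = K := by omega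
    rw [e]
    have a1 : F D γ (M - 1) x₀ < -T := by
      by_contra hc
      push Not at hc
      have := hM2 _ hc
      omega
    have a2 : F D γ (K - 1) x₀ ≤ T := by
      by_contra hc
      push Not at hc
      have := hK2 _ hc
      omega
    have b1 := F_add D γ x₀ (M - 1) 1
    have b2 := F_add D γ x₀ (K - 1) 1
    rw [sub_add_cancel] at b1 b2
    have c1 := (F_one_bounds h0 h1 γ (x₀ + ((M - 1 : ℤ) : ℝ) * γ)).2
    have c2 := (F_one_bounds h0 h1 γ (x₀ + ((K - 1 : ℤ) : ℝ) * γ)).2
    rw [abs_le]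
    constructor <;> linarith

lemma F_nat_sum (D γ y : ℝ) (N : ℕ) :
    F D γ N y = ∑ i ∈ Finset.range N, F D γ 1 (y + i * γ) := by
  induction N with
  | zero => simp [F_zero]
  | succ n ih =>
    rw [Finset.sum_range_succ, ← ih]
    push_cast
    rw [F_add]
    simp

lemma decay_of_compact {f : ℝ → ℝ} (hf : Continuous f) (hs : HasCompactSupport f) :
    Decay fun x => (f x : ℂ) := by
  refine ⟨Complex.continuous_ofReal.comp hf, ?_⟩
  have h2 : HasCompactSupport fun x => (1 + x ^ 2) * f x := hs.mul_left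
  obtain ⟨C, hC⟩ := h2.exists_bound_of_continuous (by fun_prop)
  refine ⟨C, fun x => ?_⟩
  have := hC x
  rw [norm_mul, Real.norm_eq_abs, abs_of_pos (by positivity)] at this
  rw [Complex.norm_real, le_div_iff₀ (by positivity)]
  linarith

theorem isAutocorrelation {D γ : ℝ} (h0 : 0 < D) (h1 : D < 1) (hγ : Irrational γ) (x₀ : ℝ) :
    IsAutocorrelation (circleMapSeq D γ x₀) (eta D γ) := by
  classical
  choose M N hW hL using exists_window h0 h1 γ x₀
  have mono := F_strictMono h0 h1 γ x₀
  have hset : ∀ T, circleMapSeq D γ x₀ ∩ Icc (-T) T =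
      ((Finset.range (N T)).image fun i : ℕ => F D γ (M T + i) x₀ : Finset ℝ) := by
    intro T
    rw [circleMapSeq_eq h0 h1]
    ext x
    simp only [mem_inter_iff, mem_range, Finset.coe_image, Finset.coe_range, mem_image, mem_Iio]
    constructor
    · rintro ⟨⟨n, rfl⟩, hn⟩
      have := (hW T n).1 hn
      refine ⟨(n - M T).toNat, by omega, ?_⟩
      congr 1; omega
    · rintro ⟨i, hi, rfl⟩
      exact ⟨⟨_, rfl⟩, (hW T _).2 (by omega)⟩
  have hinj : ∀ T, InjOn (fun i : ℕ => F D γ (M T + i) x₀) (Finset.range (N T) : Finset ℕ) := by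
    intro T i _ j _ hij
    have := mono.injective hij
    omega
  have hR := rmax_pos D
  have hN : Tendsto N atTop atTop := by
    rw [← tendsto_natCast_atTop_iff (R := ℝ)]
    have t1 : Tendsto (fun T : ℝ => (2 * T - rmax D) / rmax D) atTop atTop := by
      apply Tendsto.atTop_div_const hR
      exact tendsto_atTop_add_const_right _ _ (tendsto_id.const_mul_atTop two_pos)
    refine tendsto_atTop_mono' _ ?_ t1
    filter_upwards [eventually_ge_atTop 0] with T hT
    have a := abs_le.1 (hL T hT)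
    rw [F_add] at a
    have b := (F_nat_bounds h0 h1 γ (x₀ + M T * γ) (N T)).2
    rw [div_le_iff₀ hR]
    linarith [a.1]
  have ha := meanGap_pos h0 h1 γ
  -- density
  have hgap : Tendsto (fun T => F D γ (N T) (x₀ + M T * γ) / N T) atTop (𝓝 (meanGap D γ)) := by
    have t1 := (UE_F h0 h1 hγ 1 Complex.continuous_ofReal).tendsto (fun T => x₀ + M T * γ) hN
    rw [intervalIntegral.integral_ofReal] at t1
    have t2 := (Complex.continuous_re.tendsto _).comp t1
    simp only [Complex.ofReal_re] at t2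
    refine t2.congr fun T => ?_
    simp only [Function.comp_apply]
    rw [F_nat_sum, ← Complex.ofReal_sum, ← Complex.ofReal_natCast, ← Complex.ofReal_one,
      ← Complex.ofReal_div, ← Complex.ofReal_mul, Complex.ofReal_re, one_div_mul_eq_div]
  have hdens : Tendsto (fun T => 2 * T / N T) atTop (𝓝 (meanGap D γ)) := by
    have t3 : Tendsto (fun T => rmax D / (N T : ℝ)) atTop (𝓝 0) :=
      (tendsto_const_div_atTop_nhds_zero_nat _).comp hN
    have t4 : Tendsto (fun T => F D γ (N T) (x₀ + M T * γ) / N T - 2 * T / N T) atTop (𝓝 0) := by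
      refine squeeze_zero_norm' ?_ t3
      filter_upwards [eventually_ge_atTop 0] with T hT
      have a := hL T hT
      rw [F_add, add_sub_cancel_left] at a
      rw [← sub_div, norm_div, Real.norm_natCast, Real.norm_eq_abs]
      gcongr
    simpa using hgap.sub t4
  have hdens' : Tendsto (fun T => (N T : ℝ) / (2 * T)) atTop (𝓝 (1 / meanGap D γ)) := by
    have := hdens.inv₀ ha.ne'
    simpa [one_div] using this
  refine ⟨fun T => by rw [hset]; exact Finset.finite_toSet _, eta_locallyFinite h0 h1 γ, ?_⟩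
  intro f hf hs
  have hd := decay_of_compact hf hs
  have t1 := window h0 h1 hγ x₀ M hN hd
  have t2 := ((Complex.continuous_ofReal.tendsto _).comp hdens').mul t1
  have e := integral_eta h0 h1 γ hd
  rw [integral_complex_ofReal] at e
  have e2 : (((1 / meanGap D γ : ℝ)) : ℂ) = 1 / (meanGap D γ : ℂ) := by push_cast; rfl
  rw [e2, ← e] at t2
  have t3 := (Complex.continuous_re.tendsto _).comp t2
  simp only [Complex.ofReal_re] at t3
  refine t3.congr' ?_
  filter_upwards [hN.eventually_gt_atTop 0] with T hT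
  have hT' : (N T : ℝ) ≠ 0 := by exact_mod_cast hT.ne'
  simp only [Function.comp_apply]
  rw [hset]
  simp_rw [finsum_mem_coe_finset]
  rw [Finset.sum_image (hinj T)]
  simp_rw [Finset.sum_image (hinj T)]
  simp_rw [← Complex.ofReal_sum]
  rw [← Complex.ofReal_natCast, ← Complex.ofReal_one,
      ← Complex.ofReal_div, ← Complex.ofReal_mul, ← Complex.ofReal_mul, Complex.ofReal_re]
  field_simp

end Pool.Agent.H788Z.Kes
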