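import Pool.Agent.H788Z.Kes.Amp

set_option autoImplicit false

open MeasureTheory Filter Topology Set

namespace Pool.Agent.H788Z.Kes

lemma baire {Y : Type*} [UniformSpace Y] [CompleteSpace Y] [(uniformity Y).IsCountablyGenerated]
    (P : Set Y) (hne : P.Nonempty) {ι : Type*} [Countable ι] (U : ι → Set Y)
    (ho : ∀ i, IsOpen (U i)) (hd : ∀ i, P ⊆ closure (P ∩ U i)) : ∃ y, ∀ i, y ∈ U i := by
  have : CompleteSpace (closure P) := isClosed_closure.completeSpace_coe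
  have : Nonempty (closure P) := (hne.mono subset_closure).to_subtype
  have h := dense_iInter_of_isOpen (f := fun i => (Subtype.val ⁻¹' U i : Set (closure P)))
    (fun i => (ho i).preimage continuous_subtype_val) (fun i => by
      rw [Subtype.dense_iff, Subtype.image_preimage_coe]
      refine closure_minimal ((hd i).trans (closure_mono ?_)) isClosed_closure
      exact inter_subset_inter_left _ subset_closure)
  obtain ⟨y, hy⟩ := h.nonempty
  exact ⟨y, fun i => mem_iInter.1 hy i⟩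

/-- Kesten parameters with infinitely many frequencies of large amplitude -/
def PJ (J : ℕ) : Set (ℝ × ℝ × (ℕ → ℝ)) :=
  {p | ∃ (j : ℕ) (l : ℤ) (k m : ℕ → ℤ), Irrational p.1 ∧ J < j ∧ p.2.1 = Dc j l p.1 ∧
    0 < p.2.1 ∧ p.2.1 < 1 ∧ ∀ r : ℕ, p.2.2 r = fr j l (k r) (m r) p.1 ∧ (r : ℝ) < |p.2.2 r| ∧
      1 / 2 < ‖amp j l (k r) (m r) p.1‖}

lemma PJ_mono (J : ℕ) : PJ J ⊆ PJ 0 := by
  rintro p ⟨j, l, k, m, a, b, c⟩
  exact ⟨j, l, k, m, a, by omega, c⟩

lemma complete_point {J j : ℕ} (hj : J < j) (l : ℤ) {γ : ℝ} (hγ : Irrational γ)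
    (h0 : 0 < Dc j l γ) (h1 : Dc j l γ < 1) (n : ℕ) (k m : ℕ → ℤ)
    (h : ∀ r < n, (r : ℝ) < |fr j l (k r) (m r) γ| ∧ 1 / 2 < ‖amp j l (k r) (m r) γ‖) :
    ∃ s : ℕ → ℝ, (γ, Dc j l γ, s) ∈ PJ J ∧ ∀ r < n, s r = fr j l (k r) (m r) γ := by
  have hD : 2 * Dc j l γ - 1 ≠ 0 := by
    intro h
    unfold Dc at h
    have : ((2 * j : ℤ) : ℝ) * γ = ((1 + 2 * l : ℤ) : ℝ) := by push_cast; linarith
    exact (hγ.intCast_mul (by omega)).ne_int _ this
  have : ∀ r : ℕ, ∃ k' m' : ℤ, (r < n → k' = k r ∧ m' = m r) ∧ (r : ℝ) < |fr j l k' m' γ| ∧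
      1 / 2 < ‖amp j l k' m' γ‖ := by
    intro r
    by_cases hr : r < n
    · exact ⟨k r, m r, fun _ => ⟨rfl, rfl⟩, h r hr⟩
    · obtain ⟨k', m', hh⟩ := new_frequency j l h0 h1 hD r
      exact ⟨k', m', fun h => absurd h hr, hh⟩
  choose k' m' e hh using this
  refine ⟨fun r => fr j l (k' r) (m' r) γ, ⟨j, l, k', m', hγ, hj, rfl, h0, h1,
    fun r => ⟨rfl, hh r⟩⟩, fun r hr => ?_⟩
  simp only [(e r hr).1, (e r hr).2]

/-- closeness condition along a Kesten curve -/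
def Cond (p : ℝ × ℝ × (ℕ → ℝ)) (n : ℕ) (ε : ℝ) (j : ℕ) (l : ℤ) (k m : ℕ → ℤ) : Set ℝ :=
  {γ | |γ - p.1| < ε} ∩ {γ | |Dc j l γ - p.2.1| < ε} ∩ {γ | 0 < Dc j l γ} ∩ {γ | Dc j l γ < 1} ∩
    ⋂ r ∈ Finset.range n, ({γ | |fr j l (k r) (m r) γ - p.2.2 r| < ε} ∩
      {γ | (r : ℝ) < |fr j l (k r) (m r) γ|} ∩ {γ | 1 / 2 < ‖amp j l (k r) (m r) γ‖})

lemma Cond_open (p : ℝ × ℝ × (ℕ → ℝ)) (n : ℕ) (ε : ℝ) (j : ℕ) (l : ℤ) (k m : ℕ → ℤ) :
    IsOpen (Cond p n ε j l k m) := by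
  have := Dc_cont j l
  unfold Cond
  refine ((((isOpen_lt (by fun_prop) continuous_const).inter
    (isOpen_lt (by fun_prop) continuous_const)).inter
    (isOpen_lt continuous_const this)).inter (isOpen_lt this continuous_const)).inter
    (isOpen_biInter_finset fun r _ => ?_)
  have := fr_cont j l (k r) (m r)
  exact ((isOpen_lt (by fun_prop) continuous_const).inter
    (isOpen_lt continuous_const (by fun_prop))).inter
    (isOpen_lt continuous_const (amp_cont j l (k r) (m r)).norm)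

lemma mem_Cond {p : ℝ × ℝ × (ℕ → ℝ)} {n : ℕ} {ε : ℝ} {j : ℕ} {l : ℤ} {k m : ℕ → ℤ} {γ : ℝ} :
    γ ∈ Cond p n ε j l k m ↔ |γ - p.1| < ε ∧ |Dc j l γ - p.2.1| < ε ∧ 0 < Dc j l γ ∧
      Dc j l γ < 1 ∧ ∀ r < n, |fr j l (k r) (m r) γ - p.2.2 r| < ε ∧
        (r : ℝ) < |fr j l (k r) (m r) γ| ∧ 1 / 2 < ‖amp j l (k r) (m r) γ‖ := by
  unfold Cond
  simp only [mem_inter_iff, mem_ofPred_eq, mem_iInter, Finset.mem_range, and_assoc]

lemma approx {p : ℝ × ℝ × (ℕ → ℝ)} (hp : p ∈ PJ 0) (J n : ℕ) {ε : ℝ} (hε : 0 < ε) :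
    ∃ p' ∈ PJ J, |p'.1 - p.1| < ε ∧ |p'.2.1 - p.2.1| < ε ∧
      ∀ r < n, |p'.2.2 r - p.2.2 r| < ε := by
  obtain ⟨j, l, k, m, -, -, hD, h0, h1, hr⟩ := hp
  have hm : p.1 ∈ Cond p n ε j l k m := by
    rw [mem_Cond, ← hD]
    refine ⟨by simpa, by simpa, h0, h1, fun r _ => ?_⟩
    rw [← (hr r).1]
    exact ⟨by simpa, (hr r).2⟩
  obtain ⟨x, hx⟩ := Rat.denseRange_cast.exists_mem_open (Cond_open p n ε j l k m) ⟨_, hm⟩
  have hq : ((x.den : ℕ) : ℝ) * (x : ℝ) = (x.num : ℝ) := by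
    exact_mod_cast congrArg (fun y : ℚ => (y : ℝ)) (Rat.den_mul_eq_num x)
  have hrat : ∀ r, ∃ t : ℚ, tt j l (k r) (m r) x = t := by
    intro r
    refine ⟨(k r * x + m r) / ((1 - (j * x - l)) ^ 2 + (j * x - l) ^ 2) * (2 * (j * x - l) - 1), ?_⟩
    unfold tt fr sq2 Dc
    push_cast; rfl
  choose t ht using hrat
  set b : ℕ := (J + 1) * ∏ r ∈ Finset.range n, (t r).den with hb
  have hκ : ∀ r, ∃ κ : ℤ, r < n → tt j l (k r) (m r) x * b = κ := by
    intro r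
    by_cases hrn : r < n
    · obtain ⟨c, hc⟩ := Finset.dvd_prod_of_mem (fun r => (t r).den) (Finset.mem_range.2 hrn)
      refine ⟨(t r).num * ((J + 1) * c), fun _ => ?_⟩
      have hq' : (((t r).den : ℕ) : ℝ) * (t r : ℝ) = ((t r).num : ℝ) := by
        exact_mod_cast congrArg (fun y : ℚ => (y : ℝ)) (Rat.den_mul_eq_num (t r))
      rw [ht, hb, hc]
      push_cast
      linear_combination ((J : ℝ) + 1) * c * hq'
    · exact ⟨0, fun h => absurd h hrn⟩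
  choose κ hκ using hκ
  have hJ : J < j + b * x.den := by
    have a : 0 < ∏ r ∈ Finset.range n, (t r).den := Finset.prod_pos fun r _ => (t r).den_pos
    have a2 : J + 1 ≤ b := Nat.le_mul_of_pos_right _ a
    have a3 : b ≤ b * x.den := Nat.le_mul_of_pos_right _ x.den_pos
    omega
  have hm' : (x : ℝ) ∈ Cond p n ε (j + b * x.den) (l + b * x.num) (fun r => k r + κ r * x.den)
      (fun r => m r - κ r * x.num) := by
    rw [mem_Cond] at hx ⊢
    rw [Dc_branch j x.den l x.num hq]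
    refine ⟨hx.1, hx.2.1, hx.2.2.1, hx.2.2.2.1, fun r hr => ?_⟩
    rw [fr_branch j x.den l x.num _ _ _ hq, amp_branch j x.den l x.num _ _ _ hq b (hκ r hr)]
    exact hx.2.2.2.2 r hr
  obtain ⟨γ, hγ, hγ'⟩ := dense_irrational.exists_mem_open (Cond_open _ _ _ _ _ _ _) ⟨_, hm'⟩
  rw [mem_Cond] at hγ'
  obtain ⟨a1, a2, a3, a4, a5⟩ := hγ'
  obtain ⟨s, hs, hs'⟩ := complete_point hJ _ hγ a3 a4 n _ _ (fun r hr => (a5 r hr).2)
  refine ⟨_, hs, a1, a2, fun r hr => ?_⟩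
  simp only [hs' r hr]
  exact (a5 r hr).1

lemma PJ_closure (J : ℕ) : PJ 0 ⊆ closure (PJ J) := by
  intro p hp
  choose q hq h1 h2 h3 using fun n : ℕ => approx hp J n (ε := 1 / ((n : ℝ) + 1)) (by positivity)
  refine mem_closure_of_tendsto (f := q) (b := atTop) ?_ (Eventually.of_forall hq)
  have sq : ∀ (f : ℕ → ℝ) (a : ℝ), (∀ᶠ n : ℕ in atTop, |f n - a| < 1 / ((n : ℝ) + 1)) →
      Tendsto f atTop (𝓝 a) := by
    intro f a h
    rw [tendsto_iff_norm_sub_tendsto_zero]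
    refine squeeze_zero' (Eventually.of_forall fun _ => norm_nonneg _) (h.mono fun n hn => hn.le)
      tendsto_one_div_add_atTop_nhds_zero_nat
  refine (sq _ _ (Eventually.of_forall h1)).prodMk_nhds
    ((sq _ _ (Eventually.of_forall h2)).prodMk_nhds (tendsto_pi_nhds.2 fun r => sq _ _ ?_))
  filter_upwards [eventually_gt_atTop r] with n hn using h3 n r hn

lemma PJ_nonempty : (PJ 0).Nonempty := by
  have hγ : Irrational (Real.sqrt 2) := irrational_sqrt_two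
  have a : 1 < Real.sqrt 2 := by rw [Real.lt_sqrt (by norm_num)]; norm_num
  have b : Real.sqrt 2 < 2 := by rw [Real.sqrt_lt' (by norm_num)]; norm_num
  obtain ⟨s, hs, -⟩ := complete_point (J := 0) (j := 1) one_pos 1 hγ
    (by unfold Dc; push_cast; linarith) (by unfold Dc; push_cast; linarith) 0 0 0
    (fun r hr => absurd hr (Nat.not_lt_zero r))
  exact ⟨_, hs⟩

lemma half_ne {γ : ℝ} (hγ : Irrational γ) (u w : ℤ) : 1 / 2 + u * γ ≠ w := by
  intro h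
  by_cases hu : u = 0
  · subst hu
    have : (1 : ℝ) = ((2 * w : ℤ) : ℝ) := by push_cast at h ⊢; linarith
    have : (1 : ℤ) = 2 * w := by exact_mod_cast this
    omega
  · have : ((2 * u : ℤ) : ℝ) * γ = ((2 * w - 1 : ℤ) : ℝ) := by push_cast; linarith
    exact (hγ.intCast_mul (by omega)).ne_int _ this

lemma usum_continuousAt {p : ℝ × ℝ × (ℕ → ℝ)} (hp : p ∈ PJ 0) (N r : ℕ) :
    ContinuousAt (fun q : ℝ × ℝ × (ℕ → ℝ) => Usum q.2.1 q.1 (1 / 2) N (q.2.2 r)) p := by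
  obtain ⟨j, l, k, m, hγ, -, hD, -⟩ := hp
  unfold Usum
  refine tendsto_finsetSum _ fun i _ => ?_
  have := cnt_eventually (d := fun q : ℝ × ℝ × (ℕ → ℝ) => q.2.1) (g := fun q => q.1)
    (y := fun _ => 1 / 2) (p := p) (by fun_prop) (by fun_prop) continuousAt_const i (by
      intro i' _ w
      refine ⟨half_ne hγ i' w, fun h => half_ne hγ (i' - j) (w - l) ?_⟩
      rw [hD] at h
      unfold Dc at h
      push_cast; linarith)
  refine ContinuousAt.congr (f := fun q : ℝ × ℝ × (ℕ → ℝ) =>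
    ee (q.2.2 r * ((1 - q.2.1) * ((i : ℤ) : ℝ) + (2 * q.2.1 - 1) * cnt p.2.1 p.1 (1 / 2) i)))
    (ee_cont.comp (by fun_prop)).continuousAt ?_
  filter_upwards [this] with q hq
  unfold disp
  rw [hq]

theorem necessity_fails : ∃ D γ : ℝ, 0 < D ∧ D < 1 ∧
    (∀ u v w : ℤ, u * γ + v * D = w → u = 0 ∧ v = 0) ∧
    DiffractionCondition (circleMapSeq D γ (1 / 2)) := by
  let U : ℕ × ℕ × ℤ × ℤ × ℤ → Set (ℝ × ℝ × (ℕ → ℝ)) := fun i =>
    {q | 0 < q.2.1} ∩ {q | q.2.1 < 1} ∩ {q | (i.1 : ℝ) < |q.2.2 i.1|} ∩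
      interior {q | ∃ N ≥ i.2.1, (1 / 2 : ℝ) * N ≤ ‖Usum q.2.1 q.1 (1 / 2) N (q.2.2 i.1)‖} ∩
      {q | (i.2.2.1 * q.1 + i.2.2.2.1 * q.2.1 ≠ i.2.2.2.2) ∨ (i.2.2.1 = 0 ∧ i.2.2.2.1 = 0)}
  have ho : ∀ i, IsOpen (U i) := by
    intro i
    refine ((((isOpen_lt continuous_const (by fun_prop)).inter
      (isOpen_lt (by fun_prop) continuous_const)).inter
      (isOpen_lt continuous_const (by fun_prop))).inter isOpen_interior).inter ?_
    exact (isOpen_ne_fun (by fun_prop) continuous_const).union isOpen_const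
  have hd : ∀ i, PJ 0 ⊆ closure (PJ 0 ∩ U i) := by
    rintro ⟨r, N₀, u, v, w⟩
    refine (PJ_closure u.natAbs).trans (closure_mono fun p hp => ⟨PJ_mono _ hp, ?_⟩)
    have hp0 := PJ_mono _ hp
    obtain ⟨j, l, k, m, hγ, hj, hD, h0, h1, hr⟩ := hp
    refine ⟨⟨⟨⟨h0, h1⟩, (hr r).2.1⟩, ?_⟩, ?_⟩
    · rw [mem_interior_iff_mem_nhds]
      obtain ⟨N, hN, hN'⟩ := ((eventually_ge_atTop N₀).and
        (eventually_usum j l (k r) (m r) hγ (1 / 2) (hr r).2.2)).exists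
      rw [← hD, ← (hr r).1] at hN'
      filter_upwards [(usum_continuousAt hp0 N r).norm.eventually (lt_mem_nhds hN')] with q hq
      exact ⟨N, hN, hq.le⟩
    · by_cases huv : u = 0 ∧ v = 0
      · exact Or.inr huv
      left
      intro h
      simp only at h
      rw [hD] at h
      unfold Dc at h
      have e : ((u + v * j : ℤ) : ℝ) * p.1 = ((w + v * l : ℤ) : ℝ) := by push_cast; linarith
      refine (hγ.intCast_mul ?_).ne_int _ e
      intro h2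
      by_cases hv : v = 0
      · subst hv
        exact huv ⟨by simpa using h2, rfl⟩
      · have a : u.natAbs = v.natAbs * j := by
          have : u = -(v * j) := by linarith
          rw [this, Int.natAbs_neg, Int.natAbs_mul, Int.natAbs_natCast]
        have b : 0 < v.natAbs := Int.natAbs_pos.2 hv
        have c : j ≤ v.natAbs * j := Nat.le_mul_of_pos_left _ b
        omega
  obtain ⟨⟨γ, D, s⟩, hy⟩ := baire (PJ 0) PJ_nonempty U ho hd
  have h0 : 0 < D := (hy (0, 0, 0, 0, 0)).1.1.1.1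
  have h1 : D < 1 := (hy (0, 0, 0, 0, 0)).1.1.1.2
  have hind : ∀ u v w : ℤ, u * γ + v * D = w → u = 0 ∧ v = 0 := by
    intro u v w h
    rcases (hy (0, 0, u, v, w)).2 with h2 | h2
    · exact absurd h h2
    · exact h2
  have hγ : Irrational γ := by
    rintro ⟨x, rfl⟩
    have hq : ((x.den : ℕ) : ℝ) * (x : ℝ) = (x.num : ℝ) := by
      exact_mod_cast congrArg (fun y : ℚ => (y : ℝ)) (Rat.den_mul_eq_num x)
    have := (hind x.den 0 x.num (by push_cast; linarith)).1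
    exact x.den_nz (by exact_mod_cast this)
  refine ⟨D, γ, h0, h1, hind, diffraction_of_usums h0 h1 hγ _ fun K => ?_⟩
  obtain ⟨r, hr⟩ := exists_nat_gt K
  refine ⟨s r, hr.trans (hy (r, 0, 0, 0, 0)).1.1.2, ?_⟩
  rw [frequently_atTop]
  intro N₀
  have := interior_subset (hy (r, N₀, 0, 0, 0)).1.2
  exact this

end Pool.Agent.H788Z.Kes
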