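import Mathlib

set_option autoImplicit false

open MeasureTheory Filter Topology Set

namespace Pool.Agent.H788Z.Kes

/-- Uniform equidistribution of the values of `G` along rotation orbits. -/
def UE (γ : ℝ) (G : ℝ → ℂ) (c : ℂ) : Prop :=
  ∀ ε > 0, ∃ N₀ : ℕ, ∀ N ≥ N₀, ∀ y : ℝ,
    ‖∑ i ∈ Finset.range N, G (y + i * γ) - N * c‖ ≤ ε * N

lemma UE.add {γ : ℝ} {G H : ℝ → ℂ} {c d : ℂ} (hG : UE γ G c) (hH : UE γ H d) :
    UE γ (fun y => G y + H y) (c + d) := by
  intro ε hε
  obtain ⟨N₁, h₁⟩ := hG (ε / 2) (by positivity)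
  obtain ⟨N₂, h₂⟩ := hH (ε / 2) (by positivity)
  refine ⟨max N₁ N₂, fun N hN y => ?_⟩
  have a₁ := h₁ N (le_trans (le_max_left _ _) hN) y
  have a₂ := h₂ N (le_trans (le_max_right _ _) hN) y
  rw [Finset.sum_add_distrib]
  have : ∑ i ∈ Finset.range N, G (y + i * γ) + ∑ i ∈ Finset.range N, H (y + i * γ) - N * (c + d) =
      (∑ i ∈ Finset.range N, G (y + i * γ) - N * c) +
        (∑ i ∈ Finset.range N, H (y + i * γ) - N * d) := by ring
  rw [this]
  exact (norm_add_le _ _).trans (by linarith)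

lemma UE.smul {γ : ℝ} {G : ℝ → ℂ} {c : ℂ} (hG : UE γ G c) (a : ℂ) :
    UE γ (fun y => a * G y) (a * c) := by
  intro ε hε
  obtain ⟨N₁, h₁⟩ := hG (ε / (‖a‖ + 1)) (by positivity)
  refine ⟨N₁, fun N hN y => ?_⟩
  have a₁ := h₁ N hN y
  rw [← Finset.mul_sum]
  have : a * ∑ i ∈ Finset.range N, G (y + i * γ) - N * (a * c) =
      a * (∑ i ∈ Finset.range N, G (y + i * γ) - N * c) := by ring
  rw [this, norm_mul]
  have h0 : (0 : ℝ) ≤ ε / (‖a‖ + 1) * N := by positivity
  calc ‖a‖ * ‖∑ i ∈ Finset.range N, G (y + i * γ) - N * c‖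
      ≤ (‖a‖ + 1) * (ε / (‖a‖ + 1) * N) := by
        apply mul_le_mul (by linarith) a₁ (norm_nonneg _) (by positivity)
    _ = ε * N := by field_simp

/-- approximation principle -/
lemma UE.of_approx {γ : ℝ} {G : ℝ → ℂ} {c : ℂ}
    (h : ∀ ε > 0, ∃ (H : ℝ → ℂ) (d : ℂ) (E : ℝ → ℝ) (e : ℝ), UE γ H d ∧
      UE γ (fun y => (E y : ℂ)) (e : ℂ) ∧ (∀ y, ‖G y - H y‖ ≤ E y) ∧ e ≤ ε ∧ ‖c - d‖ ≤ ε) :
    UE γ G c := by
  intro ε hε
  obtain ⟨H, d, E, e, hH, hE, hGH, he, hcd⟩ := h (ε / 4) (by positivity)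
  obtain ⟨N₁, h₁⟩ := hH (ε / 4) (by positivity)
  obtain ⟨N₂, h₂⟩ := hE (ε / 4) (by positivity)
  refine ⟨max N₁ N₂, fun N hN y => ?_⟩
  have a₁ := h₁ N (le_trans (le_max_left _ _) hN) y
  have a₂ := h₂ N (le_trans (le_max_right _ _) hN) y
  have a₃ : ∑ i ∈ Finset.range N, E (y + i * γ) ≤ N * e + ε / 4 * N := by
    have : ((∑ i ∈ Finset.range N, E (y + i * γ) - N * e : ℝ) : ℂ) =
        ∑ i ∈ Finset.range N, (E (y + i * γ) : ℂ) - N * (e : ℂ) := by push_cast; ring
    rw [← this, Complex.norm_real, Real.norm_eq_abs] at a₂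
    linarith [(abs_le.1 a₂).2]
  have a₄ : ‖∑ i ∈ Finset.range N, (G (y + i * γ) - H (y + i * γ))‖ ≤
      ∑ i ∈ Finset.range N, E (y + i * γ) :=
    (norm_sum_le _ _).trans (Finset.sum_le_sum fun i _ => hGH _)
  have a₅ : ‖(N : ℂ) * (c - d)‖ ≤ N * (ε / 4) := by
    rw [norm_mul, Complex.norm_natCast]
    gcongr
  have e1 : ∑ i ∈ Finset.range N, G (y + i * γ) - N * c =
      ∑ i ∈ Finset.range N, (G (y + i * γ) - H (y + i * γ)) +
        (∑ i ∈ Finset.range N, H (y + i * γ) - N * d) - N * (c - d) := by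
    rw [Finset.sum_sub_distrib]; ring
  rw [e1]
  have hN0 : (0 : ℝ) ≤ N := Nat.cast_nonneg N
  have a₆ : (N : ℝ) * e ≤ N * (ε / 4) := by gcongr
  calc _ ≤ ‖∑ i ∈ Finset.range N, (G (y + i * γ) - H (y + i * γ)) +
        (∑ i ∈ Finset.range N, H (y + i * γ) - N * d)‖ + ‖(N : ℂ) * (c - d)‖ := norm_sub_le _ _
    _ ≤ ‖∑ i ∈ Finset.range N, (G (y + i * γ) - H (y + i * γ))‖ +
        ‖∑ i ∈ Finset.range N, H (y + i * γ) - N * d‖ + ‖(N : ℂ) * (c - d)‖ := by
        gcongr; exact norm_add_le _ _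
    _ ≤ ε * N := by linarith

lemma UE_const (γ : ℝ) (c : ℂ) : UE γ (fun _ => c) c := by
  intro ε hε
  refine ⟨0, fun N _ y => ?_⟩
  simp only [Finset.sum_const, Finset.card_range, nsmul_eq_mul, sub_self, norm_zero]
  positivity

lemma UE_fourier {γ : ℝ} (hγ : Irrational γ) {n : ℤ} (hn : n ≠ 0) :
    UE γ (fun y => fourier n (y : AddCircle (1 : ℝ))) 0 := by
  set z : ℂ := Complex.exp (2 * Real.pi * Complex.I * n * γ) with hz
  have hz1 : z ≠ 1 := by
    intro h
    rw [hz, Complex.exp_eq_one_iff] at h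
    obtain ⟨m, hm⟩ := h
    have h2 : (n : ℂ) * γ = m := by
      have hpi : (2 * Real.pi * Complex.I : ℂ) ≠ 0 := Complex.two_pi_I_ne_zero
      apply mul_left_cancel₀ hpi
      rw [← mul_assoc, hm]; ring
    have h3 : (n : ℝ) * γ = m := by exact_mod_cast h2
    exact (hγ.intCast_mul hn).ne_int m h3
  have hnorm : ‖z‖ = 1 := by
    have : (2 * Real.pi * Complex.I * n * γ : ℂ) = ((2 * Real.pi * n * γ : ℝ) : ℂ) * Complex.I := by
      push_cast; ring
    rw [hz, this, Complex.norm_exp_ofReal_mul_I]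
  have hpos : 0 < ‖z - 1‖ := norm_pos_iff.2 (sub_ne_zero.2 hz1)
  intro ε hε
  obtain ⟨N₀, hN₀⟩ := exists_nat_ge (2 / ‖z - 1‖ / ε)
  refine ⟨N₀, fun N hN y => ?_⟩
  have hterm : ∀ i : ℕ, (fourier n ((y + i * γ : ℝ) : AddCircle (1 : ℝ)) : ℂ) =
      fourier n (y : AddCircle (1 : ℝ)) * z ^ i := by
    intro i
    rw [fourier_coe_apply, fourier_coe_apply, hz, ← Complex.exp_nat_mul, ← Complex.exp_add]
    congr 1
    push_cast; ring
  simp_rw [hterm]
  rw [← Finset.mul_sum, geom_sum_eq hz1, mul_zero, sub_zero, norm_mul, norm_div]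
  have h1 : ‖(fourier n (y : AddCircle (1 : ℝ)) : ℂ)‖ = 1 := by
    rw [fourier_apply]; exact Circle.norm_coe _
  rw [h1, one_mul]
  have h2 : ‖z ^ N - 1‖ ≤ 2 := by
    calc ‖z ^ N - 1‖ ≤ ‖z ^ N‖ + ‖(1 : ℂ)‖ := norm_sub_le _ _
      _ = 2 := by rw [norm_pow, hnorm]; norm_num
  have h3 : 2 / ‖z - 1‖ ≤ ε * N := by
    rw [div_le_iff₀ hε] at hN₀
    have : (N₀ : ℝ) ≤ N := by exact_mod_cast hN
    nlinarith
  exact le_trans (by gcongr) h3

lemma integral_fourier_zero {n : ℤ} (hn : n ≠ 0) :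
    ∫ x : AddCircle (1 : ℝ), (fourier n x : ℂ) = 0 := by
  have h := integral_eq_zero_of_add_right_eq_neg (μ := (volume : Measure (AddCircle (1 : ℝ))))
    (fourier_add_half_inv_index hn (T := (1 : ℝ)) one_pos)
  exact h

lemma cont_integrable (f : C(AddCircle (1 : ℝ), ℂ)) : Integrable f volume :=
  f.continuous.integrable_of_hasCompactSupport (HasCompactSupport.of_compactSpace _)

lemma UE_circle {γ : ℝ} (hγ : Irrational γ) (h : C(AddCircle (1 : ℝ), ℂ)) :
    UE γ (fun y => h (y : AddCircle (1 : ℝ))) (∫ x, h x) := by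
  have hmem : ∀ f ∈ (Submodule.span ℂ (range <| @fourier 1)),
      UE γ (fun y => f (y : AddCircle (1 : ℝ))) (∫ x, f x) := by
    intro f hf
    induction hf using Submodule.span_induction with
    | mem f hf =>
      obtain ⟨n, rfl⟩ := hf
      by_cases hn : n = 0
      · subst hn
        have hint : ∫ x : AddCircle (1 : ℝ), (fourier 0 x : ℂ) = 1 := by
          simp [Measure.real]
        rw [hint]
        simpa [fourier_zero] using UE_const γ 1
      · rw [integral_fourier_zero hn]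
        exact UE_fourier hγ hn
    | zero => simpa using UE_const γ 0
    | add f g hf hg ihf ihg =>
      have hi : ∫ x, (f + g) x = (∫ x, f x) + ∫ x, g x := by
        simpa using integral_add (cont_integrable f) (cont_integrable g)
      rw [hi]
      exact ihf.add ihg
    | smul c f hf ihf =>
      have hi : ∫ x, (c • f) x = c * (∫ x, f x) := by
        simp [integral_const_mul]
      rw [hi]
      exact ihf.smul c
  apply UE.of_approx
  intro ε hε
  have hcl : h ∈ (Submodule.span ℂ (range <| @fourier 1)).topologicalClosure := by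
    rw [span_fourier_closure_eq_top]; trivial
  rw [← SetLike.mem_coe, Submodule.topologicalClosure_coe, Metric.mem_closure_iff] at hcl
  obtain ⟨f, hf, hfd⟩ := hcl ε hε
  rw [dist_eq_norm] at hfd
  refine ⟨_, _, fun _ => ε, ε, hmem f hf, UE_const γ _, fun y => ?_, le_rfl, ?_⟩
  · exact ((h - f).norm_coe_le_norm _).trans hfd.le
  · rw [← integral_sub (cont_integrable h) (cont_integrable f)]
    calc ‖∫ x, (h x - f x)‖ ≤ ‖h - f‖ * (volume : Measure (AddCircle (1 : ℝ))).real univ := by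
          apply norm_integral_le_of_norm_le_const
          filter_upwards with x
          exact (h - f).norm_coe_le_norm x
      _ = ‖h - f‖ := by simp [Measure.real]
      _ ≤ ε := hfd.le

lemma UE_cont {γ : ℝ} (hγ : Irrational γ) {G : ℝ → ℂ} (hG : Continuous G)
    (hp : Function.Periodic G 1) : UE γ G (∫ y in (0 : ℝ)..1, G y) := by
  have hc : Continuous hp.lift := by
    rw [← (QuotientAddGroup.isOpenQuotientMap_mk (N := AddSubgroup.zmultiples (1 : ℝ))).continuous_comp_iff]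
    exact hG
  have h1 := UE_circle hγ ⟨hp.lift, hc⟩
  have h2 : ∫ x : AddCircle (1 : ℝ), hp.lift x = ∫ y in (0 : ℝ)..1, G y := by
    have := AddCircle.intervalIntegral_preimage (T := (1 : ℝ)) 0 (fun x : AddCircle (1 : ℝ) => hp.lift x)
    rw [← this]
    simp
  simpa [h2] using h1

/-- A continuous periodic function vanishing exactly on `Z + ℤ`. -/
noncomputable def vanish (Z : Finset ℝ) (y : ℝ) : ℝ := ∏ z ∈ Z, |Real.sin (Real.pi * (y - z))|

lemma vanish_cont (Z : Finset ℝ) : Continuous (vanish Z) := by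
  unfold vanish; fun_prop

lemma vanish_nonneg (Z : Finset ℝ) (y : ℝ) : 0 ≤ vanish Z y :=
  Finset.prod_nonneg fun _ _ => abs_nonneg _

lemma vanish_periodic (Z : Finset ℝ) : Function.Periodic (vanish Z) 1 := by
  intro y
  unfold vanish
  refine Finset.prod_congr rfl fun z _ => ?_
  rw [show Real.pi * (y + 1 - z) = Real.pi * (y - z) + Real.pi by ring, Real.sin_add_pi, abs_neg]

lemma vanish_ne {Z : Finset ℝ} {y : ℝ} (h : vanish Z y ≠ 0) : ∀ z ∈ Z, ∀ m : ℤ, y - z ≠ m := by
  intro z hz m hm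
  apply h
  unfold vanish
  refine Finset.prod_eq_zero hz ?_
  rw [hm, mul_comm, Real.sin_int_mul_pi, abs_zero]

lemma ae_good (Z : Finset ℝ) : ∀ᵐ y : ℝ, ∀ z ∈ Z, ∀ m : ℤ, y - z ≠ m := by
  have hc : (⋃ z ∈ (Z : Set ℝ), ⋃ m : ℤ, ({z + m} : Set ℝ)).Countable :=
    Z.countable_toSet.biUnion fun z _ => countable_iUnion fun m => countable_singleton _
  have h0 := hc.measure_zero (volume : Measure ℝ)
  rw [← compl_mem_ae_iff] at h0
  filter_upwards [h0] with y hy z hz m hm
  apply hy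
  simp only [mem_iUnion, mem_singleton_iff]
  exact ⟨z, hz, m, by linarith⟩

lemma ae_vanish (Z : Finset ℝ) : ∀ᵐ y : ℝ, vanish Z y ≠ 0 := by
  filter_upwards [ae_good Z] with y hy
  unfold vanish
  rw [Finset.prod_ne_zero_iff]
  intro z hz h0
  rw [abs_eq_zero, Real.sin_eq_zero_iff] at h0
  obtain ⟨n, hn⟩ := h0
  apply hy z hz n
  have := Real.pi_pos
  have h2 : Real.pi * (y - z) = Real.pi * n := by rw [← hn]; ring
  exact mul_left_cancel₀ this.ne' h2

/-- Uniform equidistribution for bounded periodic functions continuous off `Z + ℤ`. -/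
theorem UE_piecewise {γ : ℝ} (hγ : Irrational γ) {G : ℝ → ℂ} (hm : Measurable G)
    (hp : Function.Periodic G 1) {C : ℝ} (hC : ∀ y, ‖G y‖ ≤ C) (Z : Finset ℝ)
    (hc : ∀ y, (∀ z ∈ Z, ∀ m : ℤ, y - z ≠ m) → ContinuousAt G y) :
    UE γ G (∫ y in (0 : ℝ)..1, G y) := by
  have hC0 : 0 ≤ C := (norm_nonneg _).trans (hC 0)
  set χ : ℕ → ℝ → ℝ := fun k y => min 1 (k * vanish Z y) with hχ
  have χc : ∀ k, Continuous (χ k) := fun k =>
    continuous_const.min (continuous_const.mul (vanish_cont Z))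
  have χp : ∀ k, Function.Periodic (χ k) 1 := fun k y => by
    simp only [hχ, vanish_periodic Z y]
  have χ0 : ∀ k y, 0 ≤ χ k y := fun k y =>
    le_min zero_le_one (mul_nonneg (Nat.cast_nonneg _) (vanish_nonneg _ _))
  have χ1 : ∀ k y, χ k y ≤ 1 := fun k y => min_le_left _ _
  have Hc : ∀ k, Continuous (fun y => G y * (χ k y : ℂ)) := by
    intro k
    rw [continuous_iff_continuousAt]
    intro y
    by_cases hy : vanish Z y = 0
    · have h0 : χ k y = 0 := by simp [hχ, hy]
      have ht : Tendsto (fun u => C * χ k u) (𝓝 y) (𝓝 0) := by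
        have := ((χc k).tendsto y).const_mul C
        rwa [h0, mul_zero] at this
      unfold ContinuousAt
      simp only [h0, Complex.ofReal_zero, mul_zero]
      refine squeeze_zero_norm (fun u => ?_) ht
      rw [norm_mul, Complex.norm_real, Real.norm_eq_abs, abs_of_nonneg (χ0 k u)]
      exact mul_le_mul_of_nonneg_right (hC u) (χ0 k u)
    · exact (hc y (vanish_ne hy)).mul
        (Complex.continuous_ofReal.continuousAt.comp (χc k).continuousAt)
  have hlim : Tendsto (fun k : ℕ => ∫ y in (0 : ℝ)..1, C * (1 - χ k y)) atTop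
      (𝓝 (∫ y in (0 : ℝ)..1, (0 : ℝ))) := by
    apply intervalIntegral.tendsto_integral_filter_of_dominated_convergence (fun _ => C)
    · filter_upwards with k
      exact (continuous_const.mul (continuous_const.sub (χc k))).aestronglyMeasurable
    · filter_upwards with k
      filter_upwards with y _
      rw [Real.norm_eq_abs, abs_of_nonneg (mul_nonneg hC0 (by linarith [χ1 k y]))]
      nlinarith [χ0 k y]
    · exact intervalIntegrable_const
    · filter_upwards [ae_vanish Z] with y hy _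
      have hpos : 0 < vanish Z y := lt_of_le_of_ne (vanish_nonneg Z y) (Ne.symm hy)
      refine tendsto_const_nhds.congr' ?_
      obtain ⟨k₀, hk₀⟩ := exists_nat_ge (1 / vanish Z y)
      filter_upwards [eventually_ge_atTop k₀] with k hk
      have h1 : (1 : ℝ) ≤ k * vanish Z y := by
        rw [div_le_iff₀ hpos] at hk₀
        have : (k₀ : ℝ) ≤ k := by exact_mod_cast hk
        nlinarith
      simp [hχ, min_eq_left h1]
  rw [intervalIntegral.integral_zero] at hlim
  apply UE.of_approx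
  intro ε hε
  obtain ⟨k, hk⟩ := (hlim.eventually (ge_mem_nhds hε)).exists
  have Ec : Continuous (fun y => C * (1 - χ k y)) :=
    continuous_const.mul (continuous_const.sub (χc k))
  have hGH : ∀ y, ‖G y - G y * (χ k y : ℂ)‖ ≤ C * (1 - χ k y) := by
    intro y
    have : G y - G y * (χ k y : ℂ) = G y * ((1 - χ k y : ℝ) : ℂ) := by push_cast; ring
    rw [this, norm_mul, Complex.norm_real, Real.norm_eq_abs, abs_of_nonneg (by linarith [χ1 k y])]
    exact mul_le_mul_of_nonneg_right (hC y) (by linarith [χ1 k y])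
  refine ⟨fun y => G y * (χ k y : ℂ), _, fun y => C * (1 - χ k y),
    ∫ y in (0 : ℝ)..1, C * (1 - χ k y), UE_cont hγ (Hc k) ?_, ?_, hGH, hk, ?_⟩
  · intro y; simp only [hp y, χp k y]
  · have := UE_cont hγ (G := fun y => ((C * (1 - χ k y) : ℝ) : ℂ))
      (Complex.continuous_ofReal.comp Ec) (fun y => by simp only [χp k y])
    rwa [intervalIntegral.integral_ofReal] at this
  · have hGi : IntervalIntegrable G volume 0 1 := by
      refine (intervalIntegrable_const (c := C)).mono_fun hm.aestronglyMeasurable ?_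
      filter_upwards with y
      simpa [abs_of_nonneg hC0] using hC y
    rw [← intervalIntegral.integral_sub hGi ((Hc k).intervalIntegrable _ _)]
    refine le_trans ?_ hk
    refine intervalIntegral.norm_integral_le_of_norm_le zero_le_one ?_ (Ec.intervalIntegrable _ _)
    filter_upwards with y _ using hGH y

end Pool.Agent.H788Z.Kes
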