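import Pool.Agent.H788Z.Kes.Defs
import Pool.Agent.H788Z.Kes.Weyl

set_option autoImplicit false

open MeasureTheory Filter Topology Set

namespace Pool.Agent.H788Z.Kes

/-- two-sided sums -/
noncomputable def zsum {M : Type*} [AddCommGroup M] (f : ℤ → M) (n : ℤ) : M :=
  ∑ i ∈ Finset.Ico 0 n, f i - ∑ i ∈ Finset.Ico n 0, f i

lemma zsum_zero {M : Type*} [AddCommGroup M] (f : ℤ → M) : zsum f 0 = 0 := by simp [zsum]

lemma zsum_succ {M : Type*} [AddCommGroup M] (f : ℤ → M) (n : ℤ) :
    zsum f (n + 1) = zsum f n + f n := by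
  unfold zsum
  rcases le_or_gt 0 n with h | h
  · have e1 : Finset.Ico 0 (n + 1) = insert n (Finset.Ico 0 n) := by
      ext i; simp only [Finset.mem_Ico, Finset.mem_insert]; omega
    have e2 : Finset.Ico (n + 1) 0 = ∅ := by
      ext i; simp only [Finset.mem_Ico, Finset.notMem_empty, iff_false]; omega
    have e3 : Finset.Ico n 0 = ∅ := by
      ext i; simp only [Finset.mem_Ico, Finset.notMem_empty, iff_false]; omega
    rw [e1, e2, e3, Finset.sum_insert (by simp)]
    simp only [Finset.sum_empty]; abel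
  · have e1 : Finset.Ico n 0 = insert n (Finset.Ico (n + 1) 0) := by
      ext i; simp only [Finset.mem_Ico, Finset.mem_insert]; omega
    have e2 : Finset.Ico 0 (n + 1) = ∅ := by
      ext i; simp only [Finset.mem_Ico, Finset.notMem_empty, iff_false]; omega
    have e3 : Finset.Ico 0 n = ∅ := by
      ext i; simp only [Finset.mem_Ico, Finset.notMem_empty, iff_false]; omega
    rw [e1, e2, e3, Finset.sum_insert (by simp)]
    simp only [Finset.sum_empty]; abel

lemma eq_of_step {M : Type*} [AddCommGroup M] {u v : ℤ → M} (h0 : u 0 = v 0)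
    (hs : ∀ n, u (n + 1) - u n = v (n + 1) - v n) (n : ℤ) : u n = v n := by
  induction n using Int.induction_on with
  | zero => exact h0
  | succ i ih =>
    have := hs i
    rw [ih] at this
    exact sub_left_injective this
  | pred i ih =>
    have := hs (-(i : ℤ) - 1)
    rw [sub_add_cancel, ih] at this
    exact sub_right_injective this

lemma zsum_nat {M : Type*} [AddCommGroup M] (f : ℤ → M) (N : ℕ) :
    zsum f N = ∑ i ∈ Finset.range N, f i := by
  induction N with
  | zero => simp [zsum_zero]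
  | succ n ih => rw [Finset.sum_range_succ, ← ih]; push_cast; rw [zsum_succ]

/-- indicator of the arc, written with floors -/
noncomputable def ind (D y : ℝ) : ℤ := ⌊y⌋ - ⌊y - D⌋

lemma ind_eq {D : ℝ} (h0 : 0 < D) (h1 : D < 1) (y : ℝ) :
    ind D y = if Int.fract y < D then 1 else 0 := by
  unfold ind
  have hf := Int.fract_nonneg y
  have hf1 := Int.fract_lt_one y
  have hy : y = ⌊y⌋ + Int.fract y := (Int.floor_add_fract y).symm
  split_ifs with h
  · have : ⌊y - D⌋ = ⌊y⌋ - 1 := by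
      rw [Int.floor_eq_iff]; push_cast; constructor <;> linarith
    rw [this]; ring
  · have : ⌊y - D⌋ = ⌊y⌋ := by
      rw [Int.floor_eq_iff]; push Not at h; constructor <;> linarith
    rw [this]; ring

/-- number of visits to the arc -/
noncomputable def cnt (D γ y : ℝ) (h : ℤ) : ℤ := zsum (fun i => ind D (y + i * γ)) h

lemma cnt_zero (D γ y : ℝ) : cnt D γ y 0 = 0 := zsum_zero _

lemma cnt_succ (D γ y : ℝ) (n : ℤ) : cnt D γ y (n + 1) = cnt D γ y n + ind D (y + n * γ) :=
  zsum_succ _ _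

lemma cnt_add (D γ y : ℝ) (n h : ℤ) :
    cnt D γ y (n + h) = cnt D γ y n + cnt D γ (y + n * γ) h := by
  refine eq_of_step (u := fun h => cnt D γ y (n + h))
    (v := fun h => cnt D γ y n + cnt D γ (y + n * γ) h) ?_ ?_ h
  · simp [cnt_zero]
  · intro k
    rw [← add_assoc, cnt_succ, cnt_succ]
    have : y + ((n + k : ℤ) : ℝ) * γ = y + n * γ + k * γ := by push_cast; ring
    rw [this]; ring

lemma cnt_periodic (D γ : ℝ) (h : ℤ) (y : ℝ) : cnt D γ (y + 1) h = cnt D γ y h := by
  unfold cnt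
  congr 1
  funext i
  unfold ind
  rw [show y + 1 + i * γ = (y + i * γ) + 1 by ring,
    show y + i * γ + 1 - D = (y + i * γ - D) + 1 by ring, Int.floor_add_one, Int.floor_add_one]
  ring

lemma cnt_measurable (D γ : ℝ) (h : ℤ) : Measurable fun y => cnt D γ y h := by
  unfold cnt zsum ind
  fun_prop

lemma floor_eventually {X : Type*} [TopologicalSpace X] {f : X → ℝ} {p : X}
    (hf : ContinuousAt f p) (hm : ∀ m : ℤ, f p ≠ m) : ∀ᶠ q in 𝓝 p, ⌊f q⌋ = ⌊f p⌋ := by
  have h1 : (⌊f p⌋ : ℝ) < f p := lt_of_le_of_ne (Int.floor_le _) (hm _).symm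
  have h2 : f p < ⌊f p⌋ + 1 := Int.lt_floor_add_one _
  filter_upwards [hf.eventually (lt_mem_nhds h1), hf.eventually (gt_mem_nhds h2)] with q a b
  rw [Int.floor_eq_iff]
  exact ⟨a.le, b⟩

lemma cnt_eventually {X : Type*} [TopologicalSpace X] {d g y : X → ℝ} {p : X}
    (hd : ContinuousAt d p) (hg : ContinuousAt g p) (hy : ContinuousAt y p) (h : ℤ)
    (hgood : ∀ i : ℤ, |i| ≤ |h| → ∀ m : ℤ, y p + i * g p ≠ m ∧ y p + i * g p - d p ≠ m) :
    ∀ᶠ q in 𝓝 p, cnt (d q) (g q) (y q) h = cnt (d p) (g p) (y p) h := by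
  have key : ∀ᶠ q in 𝓝 p, ∀ i ∈ Finset.Icc (-|h|) |h|,
      ind (d q) (y q + i * g q) = ind (d p) (y p + i * g p) := by
    rw [Filter.eventually_all_finset]
    intro i hi
    have hi' : |i| ≤ |h| := abs_le.2 (Finset.mem_Icc.1 hi)
    have c1 : ContinuousAt (fun q => y q + i * g q) p := hy.add (continuousAt_const.mul hg)
    filter_upwards [floor_eventually c1 (fun m => (hgood i hi' m).1),
      floor_eventually (c1.sub hd) (fun m => (hgood i hi' m).2)] with q a b
    unfold ind
    rw [a]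
    congr 1
  filter_upwards [key] with q hq
  unfold cnt zsum
  congr 1
  · refine Finset.sum_congr rfl fun i hi => hq i ?_
    rw [Finset.mem_Ico] at hi
    rw [Finset.mem_Icc]
    constructor <;> cases abs_cases h <;> omega
  · refine Finset.sum_congr rfl fun i hi => hq i ?_
    rw [Finset.mem_Ico] at hi
    rw [Finset.mem_Icc]
    constructor <;> cases abs_cases h <;> omega

/-- length of the vector `(1 - D, D)` -/
noncomputable def len (D : ℝ) : ℝ := Real.sqrt ((1 - D) ^ 2 + D ^ 2)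

lemma len_pos (D : ℝ) : 0 < len D := Real.sqrt_pos.2 (by nlinarith [sq_nonneg (D - 1 / 2)])

/-- unnormalised displacement -/
noncomputable def disp (D γ : ℝ) (h : ℤ) (y : ℝ) : ℝ := (1 - D) * h + (2 * D - 1) * cnt D γ y h

/-- displacement after `h` steps from the phase `y` -/
noncomputable def F (D γ : ℝ) (h : ℤ) (y : ℝ) : ℝ := disp D γ h y / len D

lemma node_eq {D : ℝ} (h0 : 0 < D) (h1 : D < 1) (γ x₀ : ℝ) (n : ℤ) :
    node D γ x₀ n = (n - cnt D γ x₀ n, cnt D γ x₀ n) := by
  refine eq_of_step (u := node D γ x₀) (v := fun n => (n - cnt D γ x₀ n, cnt D γ x₀ n)) ?_ ?_ n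
  · simp [node, cnt_zero, Prod.ext_iff]
  · intro k
    have : node D γ x₀ (k + 1) = node D γ x₀ k + step D γ x₀ k := zsum_succ _ _
    rw [this, add_sub_cancel_left, cnt_succ, ind_eq h0 h1]
    unfold step
    split_ifs <;> simp

lemma proj_node {D : ℝ} (h0 : 0 < D) (h1 : D < 1) (γ x₀ : ℝ) (n : ℤ) :
    proj D (node D γ x₀ n) = F D γ n x₀ := by
  rw [node_eq h0 h1]
  unfold proj F disp len
  congr 1
  push_cast; ring

lemma circleMapSeq_eq {D : ℝ} (h0 : 0 < D) (h1 : D < 1) (γ x₀ : ℝ) :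
    circleMapSeq D γ x₀ = range fun n : ℤ => F D γ n x₀ := by
  unfold circleMapSeq
  simp_rw [proj_node h0 h1]

lemma F_zero (D γ y : ℝ) : F D γ 0 y = 0 := by simp [F, disp, cnt_zero]

lemma F_add (D γ y : ℝ) (n h : ℤ) : F D γ (n + h) y = F D γ n y + F D γ h (y + n * γ) := by
  unfold F disp
  rw [cnt_add]
  push_cast; ring

lemma F_periodic (D γ : ℝ) (h : ℤ) : Function.Periodic (F D γ h) 1 := by
  intro y
  unfold F disp
  rw [cnt_periodic]

lemma F_measurable (D γ : ℝ) (h : ℤ) : Measurable (F D γ h) := by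
  unfold F disp
  have := cnt_measurable D γ h
  fun_prop

/-- the smallest gap -/
noncomputable def rmin (D : ℝ) : ℝ := min D (1 - D) / len D

/-- an upper bound for the gaps -/
noncomputable def rmax (D : ℝ) : ℝ := 1 / len D

lemma rmin_pos {D : ℝ} (h0 : 0 < D) (h1 : D < 1) : 0 < rmin D :=
  div_pos (lt_min h0 (by linarith)) (len_pos D)

lemma rmax_pos (D : ℝ) : 0 < rmax D := div_pos one_pos (len_pos D)

lemma F_one_bounds {D : ℝ} (h0 : 0 < D) (h1 : D < 1) (γ y : ℝ) :
    rmin D ≤ F D γ 1 y ∧ F D γ 1 y ≤ rmax D := by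
  have e : cnt D γ y 1 = ind D y := by
    have := cnt_succ D γ y 0
    simpa [cnt_zero] using this
  unfold F disp rmin rmax
  rw [e, ind_eq h0 h1]
  have hl := len_pos D
  have m1 := min_le_left D (1 - D)
  have m2 := min_le_right D (1 - D)
  split_ifs <;> constructor <;> apply div_le_div_of_nonneg_right _ hl.le <;> push_cast <;> linarith

lemma F_nat_bounds {D : ℝ} (h0 : 0 < D) (h1 : D < 1) (γ y : ℝ) (N : ℕ) :
    rmin D * N ≤ F D γ N y ∧ F D γ N y ≤ rmax D * N := by
  induction N with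
  | zero => simp [F_zero]
  | succ n ih =>
    have := F_one_bounds h0 h1 γ (y + (n : ℤ) * γ)
    push_cast at this ⊢
    rw [F_add]
    push_cast
    constructor <;> linarith [ih.1, ih.2, this.1, this.2]

lemma F_abs_bounds {D : ℝ} (h0 : 0 < D) (h1 : D < 1) (γ y : ℝ) (h : ℤ) :
    rmin D * |(h : ℝ)| ≤ |F D γ h y| ∧ |F D γ h y| ≤ rmax D * |(h : ℝ)| := by
  have hr := rmin_pos h0 h1
  rcases Int.eq_nat_or_neg h with ⟨N, rfl | rfl⟩
  · have := F_nat_bounds h0 h1 γ y N
    have h2 : 0 ≤ F D γ N y := le_trans (by positivity) this.1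
    rw [abs_of_nonneg h2]
    simpa using this
  · have e := F_add D γ y (-(N : ℤ)) N
    rw [neg_add_cancel, F_zero] at e
    have := F_nat_bounds h0 h1 γ (y + ((-(N : ℤ) : ℤ) : ℝ) * γ) N
    have h2 : 0 ≤ F D γ N (y + ((-(N : ℤ) : ℤ) : ℝ) * γ) := le_trans (by positivity) this.1
    have e2 : F D γ (-(N : ℤ)) y = -F D γ N (y + ((-(N : ℤ) : ℤ) : ℝ) * γ) := by linarith
    rw [e2, abs_neg, abs_of_nonneg h2]
    simpa using this

lemma F_strictMono {D : ℝ} (h0 : 0 < D) (h1 : D < 1) (γ y : ℝ) :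
    StrictMono fun n : ℤ => F D γ n y := by
  apply strictMono_int_of_lt_succ
  intro n
  rw [F_add]
  linarith [(F_one_bounds h0 h1 γ (y + n * γ)).1, rmin_pos h0 h1]

/-- the discontinuities of `F D γ h` -/
noncomputable def badSet (D γ : ℝ) (h : ℤ) : Finset ℝ :=
  (Finset.Icc (-|h|) |h|).image (fun i : ℤ => -(i * γ)) ∪
    (Finset.Icc (-|h|) |h|).image (fun i : ℤ => D - i * γ)

lemma F_eventually (D γ : ℝ) (h : ℤ) {y : ℝ} (hy : ∀ z ∈ badSet D γ h, ∀ m : ℤ, y - z ≠ m) :
    ∀ᶠ u in 𝓝 y, F D γ h u = F D γ h y := by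
  have := cnt_eventually (d := fun _ : ℝ => D) (g := fun _ => γ) (y := fun u => u) (p := y)
    continuousAt_const continuousAt_const continuousAt_id h (by
      intro i hi m
      have hi' : i ∈ Finset.Icc (-|h|) |h| := Finset.mem_Icc.2 (abs_le.1 hi)
      constructor
      · have := hy (-(i * γ)) (Finset.mem_union_left _ (Finset.mem_image_of_mem _ hi')) m
        intro h2; apply this; linarith
      · have := hy (D - i * γ) (Finset.mem_union_right _ (Finset.mem_image_of_mem _ hi')) m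
        intro h2; apply this; linarith)
  filter_upwards [this] with u hu
  unfold F disp
  rw [hu]

lemma UE_F {D γ : ℝ} (h0 : 0 < D) (h1 : D < 1) (hγ : Irrational γ) (h : ℤ) {φ : ℝ → ℂ}
    (hφ : Continuous φ) :
    UE γ (fun y => φ (F D γ h y)) (∫ y in (0 : ℝ)..1, φ (F D γ h y)) := by
  obtain ⟨C, hC⟩ := (isCompact_Icc (a := -(rmax D * |(h : ℝ)|))
    (b := rmax D * |(h : ℝ)|)).exists_bound_of_continuousOn hφ.continuousOn
  refine UE_piecewise hγ (hφ.measurable.comp (F_measurable D γ h)) ?_ (C := C) ?_ (badSet D γ h) ?_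
  · intro y; simp only [F_periodic D γ h y]
  · intro y
    exact hC _ (abs_le.1 (F_abs_bounds h0 h1 γ y h).2)
  · intro y hy
    refine ContinuousAt.congr (f := fun _ => φ (F D γ h y)) continuousAt_const ?_
    filter_upwards [F_eventually D γ h hy] with u hu
    rw [hu]

end Pool.Agent.H788Z.Kes
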