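import Mathlib

set_option autoImplicit false

open MeasureTheory Filter Topology
open scoped FourierTransform SchwartzMap

namespace Pool.Agent.H788Z.Kes

/-- The step `p (n+1) - p n` of the staircase: `e₂ = (0,1)` if `x₀ + n γ mod 1` lies in the arc
`[0, D)`, and `e₁ = (1,0)` otherwise. -/
noncomputable def step (D γ x₀ : ℝ) (n : ℤ) : ℤ × ℤ :=
  if Int.fract (x₀ + n * γ) < D then (0, 1) else (1, 0)

/-- The node `p n` of the two-way infinite staircase: `p 0 = 0` and
`p (n+1) - p n = step D γ x₀ n` for every integer `n`. -/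
noncomputable def node (D γ x₀ : ℝ) (n : ℤ) : ℤ × ℤ :=
  ∑ i ∈ Finset.Ico 0 n, step D γ x₀ i - ∑ i ∈ Finset.Ico n 0, step D γ x₀ i

/-- The orthogonal projection of a lattice point onto the line spanned by `(1 - D, D)`, written in
the coordinate given by the unit vector of that line. -/
noncomputable def proj (D : ℝ) (p : ℤ × ℤ) : ℝ :=
  ((1 - D) * p.1 + D * p.2) / Real.sqrt ((1 - D) ^ 2 + D ^ 2)

/-- The circle map sequence `Π(H)`, a subset of the real line. -/
def circleMapSeq (D γ x₀ : ℝ) : Set ℝ :=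
  Set.range fun n : ℤ => proj D (node D γ x₀ n)

/-- The Kesten condition: `D ≡ j γ (mod 1)` for some integer `j`. -/
def Kesten (D γ : ℝ) : Prop := ∃ j l : ℤ, D = j * γ + l

/-- `η` is the autocorrelation of `Λ`: the sets `Λ ∩ [-T, T]` are finite, `η` is a locally finite
measure, and `(1 / 2T) ∑_{x, y ∈ Λ ∩ [-T, T]} δ_{x - y}` converges vaguely to `η` as `T → ∞`. -/
def IsAutocorrelation (Λ : Set ℝ) (η : Measure ℝ) : Prop :=
  (∀ T : ℝ, (Λ ∩ Set.Icc (-T) T).Finite) ∧ IsLocallyFiniteMeasure η ∧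
    ∀ f : ℝ → ℝ, Continuous f → HasCompactSupport f →
      Tendsto (fun T : ℝ => (1 / (2 * T)) *
          ∑ᶠ x ∈ Λ ∩ Set.Icc (-T) T, ∑ᶠ y ∈ Λ ∩ Set.Icc (-T) T, f (x - y))
        atTop (𝓝 (∫ x, f x ∂η))

/-- The positive locally finite measure `ω` is the Fourier transform of the measure `η` in the sense
of tempered distributions. -/
def IsFourierTransform (η ω : Measure ℝ) : Prop :=
  IsLocallyFiniteMeasure ω ∧
    ∀ ψ : 𝓢(ℝ, ℂ), Integrable (fun s => ψ s) ω ∧ Integrable (𝓕 (fun s => ψ s)) η ∧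
      ∫ s, ψ s ∂ω = ∫ x, 𝓕 (fun s => ψ s) x ∂η

/-- The diffraction condition: the autocorrelation exists, its Fourier transform is a positive
measure, and this diffraction measure has countably infinitely many atoms. -/
def DiffractionCondition (Λ : Set ℝ) : Prop :=
  ∃ η ω : Measure ℝ, IsAutocorrelation Λ η ∧ IsFourierTransform η ω ∧
    {s : ℝ | ω {s} ≠ 0}.Countable ∧ {s : ℝ | ω {s} ≠ 0}.Infinite

end Pool.Agent.H788Z.Kes
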