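import Pool.Agent.H788Z.Kes.Limit

set_option autoImplicit false

open MeasureTheory Filter Topology Set
open scoped FourierTransform SchwartzMap NNReal ENNReal BoundedContinuousFunction

namespace Pool.Agent.H788Z.Kes

/-- the character `exp (2 π i t)` -/
noncomputable def ee (t : ℝ) : ℂ := Complex.exp (((2 * Real.pi * t : ℝ) : ℂ) * Complex.I)

lemma ee_add (s t : ℝ) : ee (s + t) = ee s * ee t := by
  unfold ee; rw [← Complex.exp_add]; congr 1; push_cast; ring

lemma norm_ee (t : ℝ) : ‖ee t‖ = 1 := Complex.norm_exp_ofReal_mul_I _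

lemma ee_int (m : ℤ) : ee m = 1 := by
  unfold ee
  rw [← Complex.exp_int_mul_two_pi_mul_I m]
  congr 1; push_cast; ring

lemma ee_conj (t : ℝ) : (starRingEnd ℂ) (ee t) = ee (-t) := by
  unfold ee
  rw [← Complex.exp_conj]
  congr 1
  simp only [map_mul, Complex.conj_ofReal, Complex.conj_I]
  push_cast; ring

lemma ee_cont : Continuous ee := by unfold ee; fun_prop

lemma norm_ee_sub_one (t : ℝ) : ‖ee t - 1‖ ≤ 2 * Real.pi * |t| := by
  unfold ee
  rw [mul_comm _ Complex.I]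
  refine Real.norm_exp_I_mul_ofReal_sub_one_le.trans ?_
  rw [Real.norm_eq_abs, abs_mul, abs_of_pos (by positivity)]

/-- exponential sums along the sequence -/
noncomputable def Ssum (D γ x₀ : ℝ) (N : ℕ) (ξ : ℝ) : ℂ :=
  ∑ i ∈ Finset.range N, ee (ξ * F D γ i x₀)

lemma Ssum_cont (D γ x₀ : ℝ) (N : ℕ) : Continuous (Ssum D γ x₀ N) := by
  unfold Ssum
  exact continuous_finsetSum _ fun i _ => ee_cont.comp (by fun_prop)

lemma Ssum_norm_le (D γ x₀ : ℝ) (N : ℕ) (ξ : ℝ) : ‖Ssum D γ x₀ N ξ‖ ≤ N := by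
  unfold Ssum
  refine (norm_sum_le _ _).trans ?_
  simp [norm_ee]

/-- the periodogram -/
noncomputable def per (D γ x₀ : ℝ) (N : ℕ) (ξ : ℝ) : ℝ :=
  (1 / meanGap D γ) * (1 / N) * ‖Ssum D γ x₀ N ξ‖ ^ 2

lemma per_cont (D γ x₀ : ℝ) (N : ℕ) : Continuous (per D γ x₀ N) :=
  continuous_const.mul ((Ssum_cont D γ x₀ N).norm.pow 2)

lemma per_nonneg {D : ℝ} (h0 : 0 < D) (h1 : D < 1) (γ x₀ : ℝ) (N : ℕ) (ξ : ℝ) :
    0 ≤ per D γ x₀ N ξ := by
  have := meanGap_pos h0 h1 γ
  unfold per; positivity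

lemma integral_per (D γ x₀ : ℝ) (N : ℕ) {ψ : ℝ → ℂ} (hψ : Integrable ψ) :
    ∫ ξ, ψ ξ * (per D γ x₀ N ξ : ℂ) = (1 / (meanGap D γ : ℂ)) * ((1 / (N : ℂ)) *
      ∑ i ∈ Finset.range N, ∑ i' ∈ Finset.range N,
        𝓕 ψ (F D γ (0 + i) x₀ - F D γ (0 + i') x₀)) := by
  have hint : ∀ x : ℝ, Integrable fun ξ => ee (-(ξ * x)) * ψ ξ := by
    intro x
    refine hψ.bdd_mul (c := 1) (ee_cont.comp (by fun_prop)).aestronglyMeasurable ?_
    exact ae_of_all _ fun ξ => (norm_ee _).le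
  have hF : ∀ x : ℝ, 𝓕 ψ x = ∫ ξ, ee (-(ξ * x)) * ψ ξ := by
    intro x
    rw [Real.fourier_real_eq_integral_exp_smul]
    congr 1
    funext ξ
    unfold ee
    rw [smul_eq_mul]
    congr 3
    push_cast; ring
  simp_rw [hF, zero_add]
  have e : ∀ i ∈ Finset.range N, ∑ i' ∈ Finset.range N,
      ∫ ξ, ee (-(ξ * (F D γ i x₀ - F D γ i' x₀))) * ψ ξ =
      ∫ ξ, ∑ i' ∈ Finset.range N, ee (-(ξ * (F D γ i x₀ - F D γ i' x₀))) * ψ ξ :=
    fun i _ => (integral_finsetSum _ fun i' _ => hint _).symm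
  rw [Finset.sum_congr rfl e,
    ← integral_finsetSum _ fun i _ => integrable_finsetSum _ fun i' _ => hint _,
    ← integral_const_mul, ← integral_const_mul]
  congr 1
  funext ξ
  unfold per
  push_cast
  have : ((‖Ssum D γ x₀ N ξ‖ : ℂ)) ^ 2 = ∑ i ∈ Finset.range N, ∑ i' ∈ Finset.range N,
      ee (-(ξ * (F D γ i x₀ - F D γ i' x₀))) := by
    rw [← Complex.conj_mul', Ssum, map_sum, Finset.sum_mul_sum]
    refine Finset.sum_congr rfl fun i _ => Finset.sum_congr rfl fun i' _ => ?_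
    rw [ee_conj, ← ee_add]
    congr 1; ring
  rw [this]
  simp_rw [← Finset.sum_mul]
  ring

lemma tendsto_per {D γ : ℝ} (h0 : 0 < D) (h1 : D < 1) (hγ : Irrational γ) (x₀ : ℝ)
    {ψ : ℝ → ℂ} (hψ : Integrable ψ) (hd : Decay (𝓕 ψ)) :
    Tendsto (fun N => ∫ ξ, ψ ξ * (per D γ x₀ N ξ : ℂ)) atTop (𝓝 (∫ x, 𝓕 ψ x ∂(eta D γ))) := by
  simp_rw [integral_per D γ x₀ _ hψ]
  rw [integral_eta h0 h1 γ hd]
  exact (window h0 h1 hγ x₀ (fun _ : ℕ => 0) (N := fun N => N) tendsto_id hd).const_mul _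

lemma per_lower {D : ℝ} (h0 : 0 < D) (h1 : D < 1) (γ x₀ : ℝ) {N : ℕ} (hN : 0 < N) {s δ : ℝ}
    (hδ : 0 < δ) (hs : δ * N ≤ ‖Ssum D γ x₀ N s‖) {ξ : ℝ}
    (hξ : |ξ - s| ≤ δ / (4 * Real.pi * rmax D * N)) :
    (1 / meanGap D γ) * (δ ^ 2 * N / 4) ≤ per D γ x₀ N ξ := by
  have hN' : (0 : ℝ) < N := by exact_mod_cast hN
  have hR := rmax_pos D
  have ha := meanGap_pos h0 h1 γ
  have hpi := Real.pi_pos
  have a1 : ‖Ssum D γ x₀ N ξ - Ssum D γ x₀ N s‖ ≤ δ / 2 * N := by
    unfold Ssum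
    rw [← Finset.sum_sub_distrib]
    refine (norm_sum_le _ _).trans ?_
    have : δ / 2 * N = ∑ _i ∈ Finset.range N, δ / 2 := by simp [mul_comm]
    rw [this]
    refine Finset.sum_le_sum fun i hi => ?_
    have e : ee (ξ * F D γ i x₀) - ee (s * F D γ i x₀) =
        ee (s * F D γ i x₀) * (ee ((ξ - s) * F D γ i x₀) - 1) := by
      rw [mul_sub, ← ee_add, mul_one]; congr 2; ring
    rw [e, norm_mul, norm_ee, one_mul]
    refine (norm_ee_sub_one _).trans ?_
    rw [abs_mul]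
    have b1 := (F_abs_bounds h0 h1 γ x₀ i).2
    have b2 : |((i : ℤ) : ℝ)| ≤ N := by
      rw [Finset.mem_range] at hi
      rw [Int.cast_natCast, Nat.abs_cast]
      exact_mod_cast hi.le
    have b3 : |F D γ i x₀| ≤ rmax D * N := b1.trans (by gcongr)
    calc 2 * Real.pi * (|ξ - s| * |F D γ i x₀|)
        ≤ 2 * Real.pi * (δ / (4 * Real.pi * rmax D * N) * (rmax D * N)) := by gcongr
      _ = δ / 2 := by field_simp; ring
  have a2 : δ / 2 * N ≤ ‖Ssum D γ x₀ N ξ‖ := by
    have := norm_sub_norm_le (Ssum D γ x₀ N s) (Ssum D γ x₀ N ξ)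
    rw [norm_sub_rev] at this
    linarith
  unfold per
  rw [mul_assoc]
  gcongr
  calc δ ^ 2 * N / 4 = 1 / N * (δ / 2 * N) ^ 2 := by field_simp; ring
    _ ≤ _ := by gcongr

theorem diffraction_of_sums {D γ : ℝ} (h0 : 0 < D) (h1 : D < 1) (hγ : Irrational γ) (x₀ : ℝ)
    (hS : ∀ K : ℝ, ∃ s : ℝ, K < |s| ∧ ∃ δ > 0, ∃ᶠ N : ℕ in atTop, δ * N ≤ ‖Ssum D γ x₀ N s‖) :
    DiffractionCondition (circleMapSeq D γ x₀) := by
  have ha := meanGap_pos h0 h1 γ
  have hbd : ∀ N ξ, ‖per D γ x₀ N ξ‖ ≤ (1 / meanGap D γ) * (1 / N) * N ^ 2 := by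
    intro N ξ
    rw [Real.norm_eq_abs, abs_of_nonneg (per_nonneg h0 h1 γ x₀ N ξ)]
    unfold per
    gcongr
    exact Ssum_norm_le D γ x₀ N ξ
  have hi : ∀ N, ∀ f : ℝ → ℝ, Integrable f → Integrable fun ξ => f ξ * per D γ x₀ N ξ :=
    fun N f hf => hf.mul_bdd (per_cont D γ x₀ N).aestronglyMeasurable (ae_of_all _ (hbd N))
  have hre : ∀ N, ∀ f : ℝ → ℝ, (∫ ξ, (f ξ : ℂ) * (per D γ x₀ N ξ : ℂ)).re =
      ∫ ξ, f ξ * per D γ x₀ N ξ := by
    intro N f
    simp_rw [← Complex.ofReal_mul]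
    rw [integral_complex_ofReal, Complex.ofReal_re]
  obtain ⟨M, hM⟩ : ∃ M, ∀ N, ∫ ξ, wt ξ * per D γ x₀ N ξ ≤ M := by
    have t := (Complex.continuous_re.tendsto _).comp
      (tendsto_per h0 h1 hγ x₀ wt_integrable.ofReal decay_fourier_wt)
    obtain ⟨M, hM⟩ := t.bddAbove_range
    refine ⟨M, fun N => ?_⟩
    rw [← hre]
    exact hM ⟨N, rfl⟩
  obtain ⟨ω, U, hU, hω, hlim⟩ := exists_limit_measure (per D γ x₀) (per_cont D γ x₀)
    (per_nonneg h0 h1 γ x₀) M (fun N => hi N _ wt_integrable) hM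
  have hFT : ∀ ψ : 𝓢(ℝ, ℂ), Integrable (fun s => ψ s) ω ∧
      ∫ s, ψ s ∂ω = ∫ x, 𝓕 (fun s => ψ s) x ∂(eta D γ) := by
    intro ψ
    obtain ⟨a, b⟩ := hlim ψ ψ.continuous (schwartz_bound ψ)
    exact ⟨a, tendsto_nhds_unique b
      ((tendsto_per h0 h1 hγ x₀ ψ.integrable (decay_fourier_schwartz ψ)).mono_left hU)⟩
  refine ⟨eta D γ, ω, isAutocorrelation h0 h1 hγ x₀, ⟨hω, fun ψ => ⟨(hFT ψ).1,
    integrable_eta h0 h1 γ (decay_fourier_schwartz ψ), (hFT ψ).2⟩⟩, ?_, ?_⟩
  · have := Measure.countable_meas_level_set_pos (μ := ω) (g := fun x : ℝ => x) measurable_id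
    refine this.mono fun s hs => ?_
    simpa [pos_iff_ne_zero] using hs
  have atom : ∀ s δ : ℝ, 0 < δ → (∃ᶠ N : ℕ in atTop, δ * N ≤ ‖Ssum D γ x₀ N s‖) → ω {s} ≠ 0 := by
    intro s δ hδ hfr
    have hR := rmax_pos D
    have hpi := Real.pi_pos
    set c : ℝ := (1 / meanGap D γ) * (δ ^ 3 / (8 * Real.pi * rmax D)) with hc
    have hc0 : 0 < c := by positivity
    have ball : ∀ ε > 0, c ≤ ω.real (Metric.closedBall s ε) := by
      intro ε hε
      let b : ContDiffBump s := ⟨ε / 2, ε, by linarith, by linarith⟩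
      have bs : HasCompactSupport fun x => (b x : ℂ) :=
        b.hasCompactSupport.comp_left (g := fun x : ℝ => (x : ℂ)) (by simp)
      let ψ : 𝓢(ℝ, ℂ) := bs.toSchwartzMap (Complex.ofRealCLM.contDiff.comp b.contDiff)
      have eψ : (fun x => ψ x) = fun x => (b x : ℂ) := rfl
      have t1 := tendsto_per h0 h1 hγ x₀ ψ.integrable (decay_fourier_schwartz ψ)
      have t2 := (hFT ψ).2
      change Tendsto _ _ (𝓝 (∫ x, 𝓕 (fun s => ψ s) x ∂(eta D γ))) at t1
      rw [← t2] at t1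
      have t3 := (Complex.continuous_re.tendsto _).comp t1
      have e3 : (∫ s, ψ s ∂ω).re = ∫ x, b x ∂ω := by
        change (∫ x, (b x : ℂ) ∂ω).re = _
        rw [integral_complex_ofReal, Complex.ofReal_re]
      rw [e3] at t3
      have bi : Integrable b := b.continuous.integrable_of_hasCompactSupport b.hasCompactSupport
      have low : c ≤ ∫ x, b x ∂ω := by
        refine ge_of_tendsto_of_frequently t3 ?_
        have ev : ∀ᶠ N : ℕ in atTop, 0 < N ∧ δ / (4 * Real.pi * rmax D * N) ≤ ε / 2 := by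
          have t4 : Tendsto (fun N : ℕ => (δ / (4 * Real.pi * rmax D)) / (N : ℝ)) atTop (𝓝 0) :=
            tendsto_const_div_atTop_nhds_zero_nat _
          filter_upwards [eventually_gt_atTop 0, t4.eventually (ge_mem_nhds (half_pos hε))]
            with N a b
          exact ⟨a, by rwa [div_div] at b⟩
        refine (hfr.and_eventually ev).mono ?_
        rintro N ⟨hs, hN, hρ⟩
        have hN' : (0 : ℝ) < N := by exact_mod_cast hN
        simp only [Function.comp_apply]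
        change c ≤ (∫ ξ, (b ξ : ℂ) * (per D γ x₀ N ξ : ℂ)).re
        rw [hre]
        set ρ := δ / (4 * Real.pi * rmax D * N) with hρd
        have hρ0 : 0 < ρ := by positivity
        calc c = ∫ _ in Metric.closedBall s ρ, (1 / meanGap D γ) * (δ ^ 2 * N / 4) := by
              rw [setIntegral_const, Measure.real, Real.volume_closedBall,
                ENNReal.toReal_ofReal (by positivity), smul_eq_mul, hc, hρd]
              field_simp; ring
          _ ≤ ∫ ξ in Metric.closedBall s ρ, b ξ * per D γ x₀ N ξ := by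
              refine setIntegral_mono_on (integrableOn_const (by
                rw [Real.volume_closedBall]; exact ENNReal.ofReal_ne_top)) (hi N b bi).integrableOn
                measurableSet_closedBall fun ξ hξ => ?_
              rw [b.one_of_mem_closedBall (Metric.closedBall_subset_closedBall hρ hξ), one_mul]
              exact per_lower h0 h1 γ x₀ hN hδ hs hξ
          _ ≤ ∫ ξ, b ξ * per D γ x₀ N ξ :=
              setIntegral_le_integral (hi N b bi)
                (ae_of_all _ fun ξ => mul_nonneg b.nonneg (per_nonneg h0 h1 γ x₀ N ξ))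
      refine low.trans ?_
      rw [← integral_indicator_one measurableSet_closedBall]
      refine integral_mono (b.continuous.integrable_of_hasCompactSupport b.hasCompactSupport)
        ((integrable_indicator_iff measurableSet_closedBall).2 (integrableOn_const
          (isCompact_closedBall s ε).measure_lt_top.ne)) fun x => ?_
      by_cases hx : x ∈ Metric.closedBall s ε
      · rw [indicator_of_mem hx]; exact b.le_one
      · rw [indicator_of_notMem hx]
        rw [Metric.mem_closedBall, not_le] at hx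
        exact (b.zero_of_le_dist hx.le).le
    have t := tendsto_measure_iInter_atTop (μ := ω)
      (s := fun k : ℕ => Metric.closedBall s (1 / ((k : ℝ) + 1)))
      (fun k => measurableSet_closedBall.nullMeasurableSet)
      (fun k k' hk => Metric.closedBall_subset_closedBall (Nat.one_div_le_one_div hk))
      ⟨0, (isCompact_closedBall _ _).measure_lt_top.ne⟩
    have e : ⋂ k : ℕ, Metric.closedBall s (1 / ((k : ℝ) + 1)) = {s} := by
      ext x
      simp only [mem_iInter, Metric.mem_closedBall, mem_singleton_iff]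
      constructor
      · intro h
        have := ge_of_tendsto' tendsto_one_div_add_atTop_nhds_zero_nat h
        exact dist_le_zero.1 this
      · rintro rfl k
        rw [dist_self]; positivity
    rw [e] at t
    have : ENNReal.ofReal c ≤ ω {s} := by
      refine ge_of_tendsto' t fun k => ?_
      exact ENNReal.ofReal_le_of_le_toReal (ball _ (by positivity))
    intro h
    rw [h, nonpos_iff_eq_zero, ENNReal.ofReal_eq_zero] at this
    linarith
  intro hfin
  obtain ⟨K, hK⟩ := (hfin.image fun s => |s|).bddAbove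
  obtain ⟨s, hs, δ, hδ, hfr⟩ := hS K
  have := hK (mem_image_of_mem _ (atom s δ hδ hfr))
  linarith

end Pool.Agent.H788Z.Kes
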