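import Pool.Agent.H788Z.Kes.Auto2

set_option autoImplicit false

open MeasureTheory Filter Topology Set
open scoped FourierTransform SchwartzMap NNReal ENNReal BoundedContinuousFunction

namespace Pool.Agent.H788Z.Kes

lemma wt_le_one (x : ℝ) : wt x ≤ 1 := by
  unfold wt; rw [div_le_one (by positivity)]; nlinarith

theorem exists_limit_measure (I : ℕ → ℝ → ℝ) (hc : ∀ N, Continuous (I N))
    (h0 : ∀ N ξ, 0 ≤ I N ξ) (M : ℝ) (hi : ∀ N, Integrable fun ξ => wt ξ * I N ξ)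
    (hM : ∀ N, ∫ ξ, wt ξ * I N ξ ≤ M) :
    ∃ (ω : Measure ℝ) (U : Ultrafilter ℕ), (U : Filter ℕ) ≤ atTop ∧ IsLocallyFiniteMeasure ω ∧
      ∀ ψ : ℝ → ℂ, Continuous ψ → (∃ C : ℝ, ∀ ξ, ‖ψ ξ‖ ≤ C * wt ξ ^ 2) →
        Integrable ψ ω ∧ Tendsto (fun N => ∫ ξ, ψ ξ * (I N ξ : ℂ)) U (𝓝 (∫ ξ, ψ ξ ∂ω)) := by
  have hM0 : 0 ≤ M := le_trans (integral_nonneg fun ξ => mul_nonneg (wt_pos ξ).le (h0 0 ξ)) (hM 0)
  have hL : ∀ N, ∫⁻ ξ, ENNReal.ofReal (wt ξ * I N ξ) ≤ ENNReal.ofReal M := by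
    intro N
    rw [← ofReal_integral_eq_lintegral_ofReal (hi N)
      (ae_of_all _ fun ξ => mul_nonneg (wt_pos ξ).le (h0 N ξ))]
    exact ENNReal.ofReal_le_ofReal (hM N)
  have dc : ∀ N, Continuous fun ξ => wt ξ ^ 2 * I N ξ := fun N => (wt_cont.pow 2).mul (hc N)
  have dm : ∀ N, Measurable fun ξ => ENNReal.ofReal (wt ξ ^ 2 * I N ξ) := fun N =>
    (dc N).measurable.ennreal_ofReal
  have hset : ∀ N (s : Set ℝ) (c : ℝ), MeasurableSet s → 0 ≤ c → (∀ ξ ∈ s, wt ξ ≤ c) →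
      (volume.withDensity fun ξ => ENNReal.ofReal (wt ξ ^ 2 * I N ξ)) s ≤
        ENNReal.ofReal (c * M) := by
    intro N s c hs hc0 hsc
    rw [withDensity_apply _ hs]
    calc ∫⁻ ξ in s, ENNReal.ofReal (wt ξ ^ 2 * I N ξ)
        ≤ ∫⁻ ξ in s, ENNReal.ofReal c * ENNReal.ofReal (wt ξ * I N ξ) := by
          refine setLIntegral_mono' hs fun ξ hξ => ?_
          rw [← ENNReal.ofReal_mul hc0]
          apply ENNReal.ofReal_le_ofReal
          have := mul_nonneg (wt_pos ξ).le (h0 N ξ)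
          nlinarith [hsc ξ hξ]
      _ ≤ ∫⁻ ξ, ENNReal.ofReal c * ENNReal.ofReal (wt ξ * I N ξ) := setLIntegral_le_lintegral _ _
      _ = ENNReal.ofReal c * ∫⁻ ξ, ENNReal.ofReal (wt ξ * I N ξ) :=
          lintegral_const_mul' _ _ ENNReal.ofReal_ne_top
      _ ≤ ENNReal.ofReal c * ENNReal.ofReal M := by gcongr; exact hL N
      _ = ENNReal.ofReal (c * M) := (ENNReal.ofReal_mul hc0).symm
  let ν : ℕ → FiniteMeasure ℝ := fun N =>
    ⟨volume.withDensity fun ξ => ENNReal.ofReal (wt ξ ^ 2 * I N ξ),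
      ⟨lt_of_le_of_lt (hset N univ 1 MeasurableSet.univ zero_le_one fun ξ _ => wt_le_one ξ)
        ENNReal.ofReal_lt_top⟩⟩
  have hu : Tendsto (fun k : ℕ => (wt k * M).toNNReal) atTop (𝓝 0) := by
    have t1 : Tendsto (fun k : ℕ => wt k * M) atTop (𝓝 0) := by
      have t2 : Tendsto (fun k : ℕ => wt k) atTop (𝓝 0) := by
        unfold wt
        apply tendsto_const_nhds.div_atTop
        apply tendsto_atTop_add_const_left
        exact (tendsto_pow_atTop two_ne_zero).comp tendsto_natCast_atTop_atTop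
      simpa using t2.mul_const M
    have := (continuous_real_toNNReal.tendsto 0).comp t1
    rw [Real.toNNReal_zero] at this
    exact this
  have hK := isCompact_setOfPred_finiteMeasure_mass_le_compl_isCompact_le (E := ℝ)
    (K := fun k : ℕ => Icc (-(k : ℝ)) k) (1 * M).toNNReal hu (fun k => isCompact_Icc)
    (Or.inl inferInstance)
  have hmem : ∀ N, ν N ∈ {μ : FiniteMeasure ℝ | μ.mass ≤ (1 * M).toNNReal ∧
      ∀ k : ℕ, μ (Icc (-(k : ℝ)) k)ᶜ ≤ (wt k * M).toNNReal} := by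
    intro N
    constructor
    · rw [← ENNReal.coe_le_coe, FiniteMeasure.ennreal_mass]
      exact hset N univ 1 MeasurableSet.univ zero_le_one fun ξ _ => wt_le_one ξ
    · intro k
      rw [← ENNReal.coe_le_coe, FiniteMeasure.ennreal_coeFn_eq_coeFn_toMeasure]
      refine hset N _ (wt k) measurableSet_Icc.compl (wt_pos _).le fun ξ hξ => ?_
      unfold wt
      apply one_div_le_one_div_of_le (by positivity)
      have : (k : ℝ) ≤ |ξ| := by
        by_contra hcon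
        push Not at hcon
        exact hξ (abs_le.1 hcon.le)
      have h2 : (k : ℝ) ^ 2 ≤ |ξ| ^ 2 := by gcongr
      rw [sq_abs] at h2
      linarith
  let U : Ultrafilter ℕ := Ultrafilter.of atTop
  obtain ⟨ν₀, -, hν₀⟩ := isCompact_iff_ultrafilter_le_nhds.1 hK (U.map ν)
    (by rw [le_principal_iff, Ultrafilter.coe_map, mem_map]; exact univ_mem' hmem)
  have hT : Tendsto ν U (𝓝 ν₀) := hν₀
  have gm : Measurable fun ξ : ℝ => ENNReal.ofReal ((1 + ξ ^ 2) ^ 2) := by fun_prop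
  have main : ∀ ψ : ℝ → ℂ, Continuous ψ → (∃ C : ℝ, ∀ ξ, ‖ψ ξ‖ ≤ C * wt ξ ^ 2) →
      Integrable ψ ((ν₀ : Measure ℝ).withDensity fun ξ => ENNReal.ofReal ((1 + ξ ^ 2) ^ 2)) ∧
      Tendsto (fun N => ∫ ξ, ψ ξ * (I N ξ : ℂ)) U
        (𝓝 (∫ ξ, ψ ξ ∂((ν₀ : Measure ℝ).withDensity fun ξ => ENNReal.ofReal ((1 + ξ ^ 2) ^ 2)))) := by
    rintro ψ hψ ⟨C, hC⟩
    have gc : Continuous fun ξ : ℝ => ((1 + ξ ^ 2) ^ 2 : ℝ) • ψ ξ := by fun_prop
    have gb : ∀ ξ : ℝ, ‖((1 + ξ ^ 2) ^ 2 : ℝ) • ψ ξ‖ ≤ C := by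
      intro ξ
      rw [norm_smul, Real.norm_eq_abs, abs_of_pos (by positivity)]
      have := hC ξ
      unfold wt at this
      rw [div_pow, one_pow, mul_one_div, le_div_iff₀ (by positivity)] at this
      linarith
    let g : ℝ →ᵇ ℂ := BoundedContinuousFunction.ofNormedAddCommGroup _ gc C gb
    have e1 : ∀ ξ : ℝ, (ENNReal.ofReal ((1 + ξ ^ 2) ^ 2)).toReal • ψ ξ = g ξ := by
      intro ξ
      rw [ENNReal.toReal_ofReal (by positivity)]; rfl
    constructor
    · rw [integrable_withDensity_iff_integrable_smul' gm (ae_of_all _ fun _ => ENNReal.ofReal_lt_top)]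
      simp_rw [e1]
      exact g.integrable _
    · rw [integral_withDensity_eq_integral_toReal_smul gm
        (ae_of_all _ fun _ => ENNReal.ofReal_lt_top)]
      simp_rw [e1]
      have := (FiniteMeasure.tendsto_iff_forall_integral_rclike_tendsto ℂ).1 hT g
      refine this.congr fun N => ?_
      change ∫ ξ, g ξ ∂(volume.withDensity fun ξ => ENNReal.ofReal (wt ξ ^ 2 * I N ξ)) = _
      rw [integral_withDensity_eq_integral_toReal_smul (dm N)
        (ae_of_all _ fun _ => ENNReal.ofReal_lt_top)]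
      congr 1
      funext ξ
      rw [ENNReal.toReal_ofReal (mul_nonneg (sq_nonneg _) (h0 N ξ))]
      change (wt ξ ^ 2 * I N ξ) • (((1 + ξ ^ 2) ^ 2 : ℝ) • ψ ξ) = _
      rw [smul_smul, Complex.real_smul, mul_comm]
      congr 2
      unfold wt
      field_simp
  refine ⟨_, U, Ultrafilter.of_le _, ?_, main⟩
  refine locallyFinite_of_integrable (f := fun ξ => ((wt ξ ^ 2 : ℝ) : ℂ))
    (Complex.continuous_ofReal.comp (wt_cont.pow 2))
    (fun x => by exact_mod_cast (pow_pos (wt_pos x) 2).ne') ?_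
  refine (main _ (Complex.continuous_ofReal.comp (wt_cont.pow 2)) ⟨1, fun ξ => ?_⟩).1
  simp only [Function.comp_apply]
  rw [Complex.norm_real, Real.norm_eq_abs, one_mul]
  exact (abs_of_nonneg (sq_nonneg (wt ξ))).le

lemma fourier_cont {f : ℝ → ℂ} (hf : Integrable f) : Continuous (𝓕 f) :=
  VectorFourier.fourierIntegral_continuous Real.continuous_fourierChar
    (innerSL ℝ).continuous₂ hf

lemma fourier_norm_le (f : ℝ → ℂ) (x : ℝ) : ‖𝓕 f x‖ ≤ ∫ v, ‖f v‖ :=
  VectorFourier.norm_fourierIntegral_le_integral_norm _ _ _ _ _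

lemma wt_integrable : Integrable wt := by
  have := integrable_inv_one_add_sq
  refine this.congr (ae_of_all _ fun x => ?_)
  simp [wt]

lemma decay_fourier_wt : Decay (𝓕 fun x => (wt x : ℂ)) := by
  have i0 : Integrable fun x => (wt x : ℂ) := wt_integrable.ofReal
  refine ⟨fourier_cont i0, ?_⟩
  set w1 : ℝ → ℝ := fun x => -(2 * x) / (1 + x ^ 2) ^ 2 with hw1
  set w2 : ℝ → ℝ := fun x => (6 * x ^ 2 - 2) / (1 + x ^ 2) ^ 3 with hw2
  have d0 : ∀ x : ℝ, HasDerivAt (fun x : ℝ => 1 + x ^ 2) (2 * x) x := fun x => by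
    simpa using ((hasDerivAt_id x).pow 2).const_add 1
  have d1 : ∀ x, HasDerivAt wt (w1 x) x := by
    intro x
    have := (hasDerivAt_const x (1 : ℝ)).fun_div (d0 x) (by positivity)
    refine HasDerivAt.congr_deriv this ?_
    simp [hw1]
  have d2 : ∀ x, HasDerivAt w1 (w2 x) x := by
    intro x
    have h1 : HasDerivAt (fun x : ℝ => -(2 * x)) (-2) x := by
      simpa using ((hasDerivAt_id x).const_mul 2).fun_neg
    have := h1.fun_div ((d0 x).fun_pow 2) (by positivity)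
    refine HasDerivAt.congr_deriv this ?_
    simp only [hw2]
    field_simp
    ring
  have c1 : Continuous w1 := continuous_iff_continuousAt.2 fun x => (d2 x).continuousAt
  have c2 : Continuous w2 := by
    simp only [hw2]
    exact Continuous.div (by fun_prop) (by fun_prop) fun x => by positivity
  have j1 : Integrable w1 := by
    refine wt_integrable.mono' c1.aestronglyMeasurable (ae_of_all _ fun x => ?_)
    simp only [hw1, wt]
    rw [norm_div, Real.norm_eq_abs, Real.norm_eq_abs, abs_of_pos (a := (1 + x ^ 2) ^ 2) (by positivity),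
      div_le_div_iff₀ (by positivity) (by positivity)]
    have : |-(2 * x)| ≤ 1 + x ^ 2 := by
      rw [abs_le]; constructor <;> nlinarith [sq_nonneg (x - 1), sq_nonneg (x + 1)]
    have h3 : 0 < 1 + x ^ 2 := by positivity
    nlinarith
  have j2 : Integrable w2 := by
    refine (wt_integrable.const_mul 6).mono' c2.aestronglyMeasurable (ae_of_all _ fun x => ?_)
    simp only [hw2, wt]
    rw [norm_div, Real.norm_eq_abs, Real.norm_eq_abs, abs_of_pos (a := (1 + x ^ 2) ^ 3) (by positivity),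
      mul_one_div, div_le_div_iff₀ (by positivity) (by positivity)]
    have : |6 * x ^ 2 - 2| ≤ 6 * (1 + x ^ 2) := by
      rw [abs_le]; constructor <;> nlinarith [sq_nonneg x]
    have h3 : 0 < 1 + x ^ 2 := by positivity
    have h4 : (1 + x ^ 2) ^ 2 ≤ (1 + x ^ 2) ^ 3 := pow_le_pow_right₀ (by nlinarith) (by norm_num)
    nlinarith
  have D1 : ∀ x, HasDerivAt (fun x => (wt x : ℂ)) (w1 x : ℂ) x := fun x => (d1 x).ofReal_comp
  have D2 : ∀ x, HasDerivAt (fun x => (w1 x : ℂ)) (w2 x : ℂ) x := fun x => (d2 x).ofReal_comp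
  have e1 : deriv (fun x => (wt x : ℂ)) = fun x => (w1 x : ℂ) := funext fun x => (D1 x).deriv
  have e2 : deriv (fun x => (w1 x : ℂ)) = fun x => (w2 x : ℂ) := funext fun x => (D2 x).deriv
  have f1 := Real.fourier_deriv i0 (fun x => (D1 x).differentiableAt) (by rw [e1]; exact j1.ofReal)
  have f2 := Real.fourier_deriv (f := fun x => (w1 x : ℂ)) j1.ofReal
    (fun x => (D2 x).differentiableAt) (by rw [e2]; exact j2.ofReal)
  rw [e1] at f1
  rw [e2, f1] at f2
  refine ⟨(∫ v, ‖(wt v : ℂ)‖) + ∫ v, ‖(w2 v : ℂ)‖, fun x => ?_⟩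
  have a1 := fourier_norm_le (fun x => (wt x : ℂ)) x
  have a2 := fourier_norm_le (fun x => (w2 x : ℂ)) x
  rw [f2] at a2
  simp only [norm_smul, norm_mul, Complex.norm_ofNat, Complex.norm_real, Complex.norm_I,
    Real.norm_eq_abs, mul_one] at a2
  rw [le_div_iff₀ (by positivity)]
  have hpi : 1 ≤ 2 * |Real.pi| := by
    rw [abs_of_pos Real.pi_pos]; linarith [Real.pi_gt_three]
  have a3 : x ^ 2 * ‖𝓕 (fun x => (wt x : ℂ)) x‖ ≤
      2 * |Real.pi| * |x| * (2 * |Real.pi| * |x| * ‖𝓕 (fun x => (wt x : ℂ)) x‖) := by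
    rw [← sq_abs x]
    have b : 0 ≤ |x| ^ 2 * ‖𝓕 (fun x => (wt x : ℂ)) x‖ := by positivity
    have b2 : 1 ≤ (2 * |Real.pi|) ^ 2 := one_le_pow₀ hpi
    nlinarith
  simp only [Complex.norm_real, Real.norm_eq_abs] at a1 ⊢
  linarith

lemma schwartz_bound (ψ : 𝓢(ℝ, ℂ)) : ∃ C : ℝ, ∀ ξ, ‖ψ ξ‖ ≤ C * wt ξ ^ 2 := by
  obtain ⟨C0, -, h0⟩ := ψ.decay 0 0
  obtain ⟨C2, -, h2⟩ := ψ.decay 2 0
  obtain ⟨C4, -, h4⟩ := ψ.decay 4 0
  refine ⟨C0 + 2 * C2 + C4, fun ξ => ?_⟩
  have a0 := h0 ξ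
  have a2 := h2 ξ
  have a4 := h4 ξ
  simp only [norm_iteratedFDeriv_zero, Real.norm_eq_abs, pow_zero, one_mul, sq_abs] at a0 a2 a4
  have : |ξ| ^ 4 = ξ ^ 4 := by rw [show 4 = 2 * 2 by rfl, pow_mul, sq_abs, ← pow_mul]
  rw [this] at a4
  unfold wt
  rw [div_pow, one_pow, mul_one_div, le_div_iff₀ (by positivity)]
  nlinarith

lemma decay_fourier_schwartz (ψ : 𝓢(ℝ, ℂ)) : Decay (𝓕 fun s => ψ s) := by
  obtain ⟨C, hC⟩ := schwartz_bound (𝓕 ψ)
  refine ⟨(𝓕 ψ).continuous, |C|, fun x => ?_⟩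
  refine (hC x).trans ?_
  have a := wt_pos x
  have b := wt_le_one x
  have : |C| / (1 + x ^ 2) = |C| * wt x := by unfold wt; ring
  rw [this]
  calc C * wt x ^ 2 ≤ |C| * wt x ^ 2 := by gcongr; exact le_abs_self _
    _ ≤ |C| * wt x := by gcongr; nlinarith

end Pool.Agent.H788Z.Kes
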