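import Pool.Agent.H788Z.Kes.Diffr

set_option autoImplicit false

open MeasureTheory Filter Topology Set

namespace Pool.Agent.H788Z.Kes

/-- squared length of `(1 - D, D)` -/
noncomputable def sq2 (D : ℝ) : ℝ := (1 - D) ^ 2 + D ^ 2

lemma sq2_ge (D : ℝ) : 1 / 2 ≤ sq2 D := by unfold sq2; nlinarith [sq_nonneg (D - 1 / 2)]

lemma sq2_pos (D : ℝ) : 0 < sq2 D := lt_of_lt_of_le (by norm_num) (sq2_ge D)

lemma len_ge (D : ℝ) : 1 / 2 ≤ len D := by
  unfold len
  apply Real.le_sqrt_of_sq_le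
  have := sq2_ge D
  unfold sq2 at this
  linarith

/-- exponential sums in unnormalised units -/
noncomputable def Usum (D γ y : ℝ) (N : ℕ) (s : ℝ) : ℂ :=
  ∑ i ∈ Finset.range N, ee (s * disp D γ i y)

theorem diffraction_of_usums {D γ : ℝ} (h0 : 0 < D) (h1 : D < 1) (hγ : Irrational γ) (x₀ : ℝ)
    (hS : ∀ K : ℝ, ∃ s : ℝ, K < |s| ∧ ∃ᶠ N : ℕ in atTop, (1 / 2 : ℝ) * N ≤ ‖Usum D γ x₀ N s‖) :
    DiffractionCondition (circleMapSeq D γ x₀) := by
  apply diffraction_of_sums h0 h1 hγ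
  intro K
  obtain ⟨s, hs, hf⟩ := hS (2 * K)
  refine ⟨s * len D, ?_, 1 / 2, by norm_num, ?_⟩
  · rw [abs_mul, abs_of_pos (len_pos D)]
    nlinarith [len_ge D, abs_nonneg s]
  · refine hf.mono fun N hN => ?_
    have : Ssum D γ x₀ N (s * len D) = Usum D γ x₀ N s := by
      unfold Ssum Usum F
      refine Finset.sum_congr rfl fun i _ => ?_
      congr 1
      have := (len_pos D).ne'
      field_simp
    rwa [this]

lemma dirichlet {D : ℝ} (h0 : 0 < D) (h1 : D < 1) (hD : 2 * D - 1 ≠ 0) {ε : ℝ} (hε : 0 < ε)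
    (K : ℝ) : ∃ p m : ℤ, K < |(p * D + m) / sq2 D| ∧
      |(p * D + m) / sq2 D * (2 * D - 1) - p| ≤ ε := by
  obtain ⟨K', hK'⟩ := exists_nat_gt (K + ε)
  obtain ⟨n, hn⟩ := exists_nat_gt (2 * K' / ε)
  have hn0 : 0 < n := by
    have : (0 : ℝ) ≤ 2 * K' / ε := by positivity
    exact_mod_cast lt_of_le_of_lt this hn
  obtain ⟨j, k, hk0, -, hjk⟩ := Real.exists_int_int_abs_mul_sub_le ((1 - D) / (2 * D - 1)) hn0
  have ha := sq2_pos D
  have ha2 := sq2_ge D
  have hb : |2 * D - 1| ≤ 1 := by rw [abs_le]; constructor <;> linarith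
  have key : |(((K' * k : ℤ) : ℝ) * D + ((K' * j : ℤ) : ℝ)) / sq2 D * (2 * D - 1) -
      ((K' * k : ℤ) : ℝ)| ≤ ε := by
    have e : (((K' * k : ℤ) : ℝ) * D + ((K' * j : ℤ) : ℝ)) / sq2 D * (2 * D - 1) -
        ((K' * k : ℤ) : ℝ) =
        -(K' * (2 * D - 1) * (k * ((1 - D) / (2 * D - 1)) - j)) / sq2 D := by
      have e0 : (2 * D - 1) * ((1 - D) / (2 * D - 1)) = 1 - D := mul_div_cancel₀ _ hD
      generalize (1 - D) / (2 * D - 1) = θ at e0
      push_cast
      field_simp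
      unfold sq2
      linear_combination (K' * k : ℝ) * e0
    rw [e, abs_div, abs_neg, abs_mul, abs_mul, abs_of_pos ha, Nat.abs_cast, div_le_iff₀ ha]
    rw [div_lt_iff₀ hε] at hn
    have hn1 : (0 : ℝ) < (n : ℝ) + 1 := by positivity
    calc (K' : ℝ) * |2 * D - 1| * |(k : ℝ) * ((1 - D) / (2 * D - 1)) - j|
        ≤ K' * 1 * (1 / (n + 1)) := by gcongr
      _ ≤ ε * (1 / 2) := by
          rw [mul_one, mul_one_div, div_le_iff₀ hn1]; nlinarith
      _ ≤ ε * sq2 D := by gcongr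
  refine ⟨K' * k, K' * j, ?_, key⟩
  set s := (((K' * k : ℤ) : ℝ) * D + ((K' * j : ℤ) : ℝ)) / sq2 D
  have a1 : |s * (2 * D - 1)| ≤ |s| := by
    rw [abs_mul]; exact mul_le_of_le_one_right (abs_nonneg _) hb
  have a2 : (K' : ℝ) ≤ ((K' * k : ℤ) : ℝ) := by
    push_cast
    have : (1 : ℝ) ≤ k := by exact_mod_cast hk0
    nlinarith [Nat.cast_nonneg (α := ℝ) K']
  linarith [(abs_le.1 key).1, le_abs_self (s * (2 * D - 1))]

lemma telescope_bound (u : ℤ → ℝ) (hu0 : ∀ i, 0 ≤ u i) (hu1 : ∀ i, u i ≤ 1) (N : ℕ) (j : ℤ) :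
    |∑ i ∈ Finset.range N, (u (i - j) - u i)| ≤ |(j : ℝ)| := by
  have tel : ∀ j : ℤ, |∑ i ∈ Finset.range N, (u (i - (j + 1)) - u (i - j))| ≤ 1 := by
    intro j
    have := Finset.sum_range_sub' (fun i : ℕ => u (i - (j + 1))) N
    have e : ∀ i : ℕ, ((i + 1 : ℕ) : ℤ) - (j + 1) = i - j := fun i => by push_cast; ring
    simp only [e] at this
    rw [this, abs_le]
    constructor <;> linarith [hu0 ((0 : ℕ) - (j + 1)), hu1 ((0 : ℕ) - (j + 1)),
      hu0 (N - (j + 1)), hu1 (N - (j + 1))]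
  have split : ∀ j : ℤ, ∑ i ∈ Finset.range N, (u (i - (j + 1)) - u i) =
      ∑ i ∈ Finset.range N, (u (i - (j + 1)) - u (i - j)) +
        ∑ i ∈ Finset.range N, (u (i - j) - u i) := by
    intro j
    rw [← Finset.sum_add_distrib]
    exact Finset.sum_congr rfl fun i _ => by ring
  induction j using Int.induction_on with
  | zero => simp
  | succ j ih =>
    rw [split]
    have := tel j
    have e : |(((j : ℤ) + 1 : ℤ) : ℝ)| = |((j : ℤ) : ℝ)| + 1 := by
      push_cast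
      rw [abs_of_nonneg (by positivity), Nat.abs_cast]
    rw [e]
    exact (abs_add_le _ _).trans (by linarith)
  | pred j ih =>
    have a := split (-(j : ℤ) - 1)
    have b := tel (-(j : ℤ) - 1)
    rw [sub_add_cancel] at a b
    have e : |((-(j : ℤ) - 1 : ℤ) : ℝ)| = |((-(j : ℤ) : ℤ) : ℝ)| + 1 := by
      push_cast
      rw [abs_neg, Nat.abs_cast, abs_of_nonpos (by linarith [Nat.cast_nonneg (α := ℝ) j])]
      ring
    rw [e, abs_le]
    rw [abs_le] at ih b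
    constructor <;> linarith [ih.1, ih.2, b.1, b.2]

lemma discrepancy_bound (γ y : ℝ) (j l : ℤ) (N : ℕ) :
    |(cnt (j * γ + l) γ y N : ℝ) - N * (j * γ + l)| ≤ |(j : ℝ)| := by
  have := telescope_bound (fun i : ℤ => Int.fract (y + i * γ)) (fun i => Int.fract_nonneg _)
    (fun i => (Int.fract_lt_one _).le) N j
  convert this using 2
  unfold cnt
  rw [zsum_nat]
  push_cast
  have : (N : ℝ) * (j * γ + l) = ∑ _i ∈ Finset.range N, (j * γ + l) := by
    simp [mul_add]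
  rw [this, ← Finset.sum_sub_distrib]
  refine Finset.sum_congr rfl fun i _ => ?_
  unfold ind Int.fract
  have e : ⌊y + (i : ℝ) * γ - (j * γ + l)⌋ = ⌊y + ((i : ℝ) - j) * γ⌋ - l := by
    rw [← Int.floor_sub_intCast]; congr 1; ring
  rw [e]
  push_cast; ring

lemma norm_sum_ge {N : ℕ} {f : ℕ → ℂ} (h : ∀ i, ‖f i - 1‖ ≤ 1 / 2) :
    (1 / 2 : ℝ) * N ≤ ‖∑ i ∈ Finset.range N, f i‖ := by
  have a : ‖∑ i ∈ Finset.range N, (f i - 1)‖ ≤ 1 / 2 * N := by
    refine (norm_sum_le _ _).trans ((Finset.sum_le_sum fun i _ => h i).trans ?_)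
    simp [mul_comm]
  rw [Finset.sum_sub_distrib] at a
  simp only [Finset.sum_const, Finset.card_range, nsmul_eq_mul, mul_one] at a
  have := norm_sub_norm_le (N : ℂ) (∑ i ∈ Finset.range N, f i)
  rw [norm_sub_rev, Complex.norm_natCast] at this
  linarith

theorem sufficiency {D γ : ℝ} (h0 : 0 < D) (h1 : D < 1) (hγ : Irrational γ) (x₀ : ℝ)
    (hK : Kesten D γ) : DiffractionCondition (circleMapSeq D γ x₀) := by
  obtain ⟨j, l, hD⟩ := hK
  have hj : j ≠ 0 := by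
    rintro rfl
    simp only [Int.cast_zero, zero_mul, zero_add] at hD
    rw [hD] at h0 h1
    have a : 0 < l := by exact_mod_cast h0
    have b : l < 1 := by exact_mod_cast h1
    omega
  have hD2 : 2 * D - 1 ≠ 0 := by
    intro h
    have : ((2 * j : ℤ) : ℝ) * γ = ((1 - 2 * l : ℤ) : ℝ) := by push_cast; linarith
    exact (hγ.intCast_mul (by omega)).ne_int _ this
  apply diffraction_of_usums h0 h1 hγ
  intro K
  have hpi := Real.pi_pos
  have hj' : 0 < |(j : ℝ)| := abs_pos.2 (by exact_mod_cast hj)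
  obtain ⟨p, m, hs, ht⟩ := dirichlet h0 h1 hD2 (ε := 1 / (4 * Real.pi * |(j : ℝ)|))
    (by positivity) K
  refine ⟨_, hs, Frequently.of_forall fun N => norm_sum_ge fun i => ?_⟩
  set s := (p * D + m) / sq2 D with hsd
  have hsa : s * sq2 D = p * D + m := by
    rw [hsd]; exact div_mul_cancel₀ _ (sq2_pos D).ne'
  have hz := discrepancy_bound γ x₀ j l i
  rw [← hD] at hz
  have e : s * disp D γ i x₀ = ((p * cnt D γ x₀ i + m * i : ℤ) : ℝ) +
      (s * (2 * D - 1) - p) * (cnt D γ x₀ i - i * D) := by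
    unfold disp
    unfold sq2 at hsa
    push_cast
    linear_combination (i : ℝ) * hsa
  rw [e, ee_add, ee_int, one_mul]
  refine (norm_ee_sub_one _).trans ?_
  rw [abs_mul]
  calc 2 * Real.pi * (|s * (2 * D - 1) - p| * |(cnt D γ x₀ i : ℝ) - i * D|)
      ≤ 2 * Real.pi * (1 / (4 * Real.pi * |(j : ℝ)|) * |(j : ℝ)|) := by gcongr
    _ = 1 / 2 := by field_simp; ring

end Pool.Agent.H788Z.Kes
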